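import Mathlib

/-!
# Arithmetic of the label sizes
-/

set_option autoImplicit false

namespace Pool.Agent.U299.CC

/-- Facts about a pole used in the analysis: sizes `f0 f1` on the side of `x`, `g0 g1` on the
side of `y`, and `X` for the common symmetric difference. -/
structure PF (f0 f1 g0 g1 X : ℕ) : Prop where
  a1 : 1 ≤ f0
  a2 : f0 ≤ 2
  a3 : 1 ≤ f1
  a4 : f1 ≤ 2
  b1 : 1 ≤ g0
  b2 : g0 ≤ 2
  b3 : 1 ≤ g1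
  b4 : g1 ≤ 2
  p1 : (f0 + f1) % 2 = X % 2
  p2 : (g0 + g1) % 2 = X % 2
  l1 : X ≤ f0 + f1
  l2 : X ≤ g0 + g1

/-- The additional facts if the graph has no clean flow. -/
structure PN (f0 f1 g0 g1 X : ℕ) : Prop extends PF f0 f1 g0 g1 X where
  s2 : X % 2 = 1 → X = 3
  s3 : X = 2 → f0 = 1 → f1 = 1 → g0 = 2 ∧ g1 = 2
  s4 : X = 2 → g0 = 1 → g1 = 1 → f0 = 2 ∧ f1 = 2

/-- Sizes at three gates. -/
structure GF (X0 X1 X2 D0 D1 D2 : ℕ) : Prop where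
  u : D0 + D1 + D2 = 4
  u0 : 1 ≤ D0
  u1 : 1 ≤ D1
  u2 : 1 ≤ D2
  p0 : (X1 + X2) % 2 = D0 % 2
  p1 : (X2 + X0) % 2 = D1 % 2
  p2 : (X0 + X1) % 2 = D2 % 2
  t0 : X1 ≤ X2 + D0
  t0' : X2 ≤ X1 + D0
  t1 : X2 ≤ X0 + D1
  t1' : X0 ≤ X2 + D1
  t2 : X0 ≤ X1 + D2
  t2' : X1 ≤ X0 + D2

theorem ones {c0 c1 f0 f1 g0 g1 : ℕ} (h0 : c0 + f0 + g0 = 4) (h1 : c1 + f1 + g1 = 4)
    (h2 : c0 + c1 + 1 = 4) (hg : 3 ≤ g0 + g1) (a : 1 ≤ f0) (b : 1 ≤ f1) : f0 = 1 ∧ f1 = 1 := by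
  omega

theorem ones' {c0 c1 f0 f1 g0 g1 : ℕ} (h0 : c0 + f0 + g0 = 4) (h1 : c1 + f1 + g1 = 4)
    (h2 : c0 + c1 + 1 = 4) (hg : 3 ≤ f0 + f1) (a : 1 ≤ g0) (b : 1 ≤ g1) : g0 = 1 ∧ g1 = 1 := by
  omega

theorem two {X Y : ℕ} (h : Y ≤ X + 1) (hY : Y = 3) (hp : X % 2 = 0) (hl : X ≤ 2) : X = 2 := by
  omega

/-- The `x` side of pole `P` and the `y` side of pole `Q` meet at a gate with `D = 1`, and the
symmetric difference of `Q` is odd. -/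
theorem gateL {c0 c1 f0 f1 g0 g1 X f0' f1' g0' g1' Y : ℕ} (P : PN f0 f1 g0 g1 X)
    (Q : PN f0' f1' g0' g1' Y) (h0 : c0 + f0 + g0' = 4) (h1 : c1 + f1 + g1' = 4)
    (h2 : c0 + c1 + 1 = 4) (hY : Y % 2 = 1) (hX : X % 2 = 0) (ht : Y ≤ X + 1) :
    f0 = 1 ∧ f1 = 1 ∧ X = 2 ∧ g0 = 2 ∧ g1 = 2 := by
  have e := Q.s2 hY
  have e1 := ones h0 h1 h2 (e ▸ Q.l2) P.a1 P.a3
  have e2 : X ≤ 2 := by
    have := P.l1
    rw [e1.1, e1.2] at this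
    exact this
  have e3 := two ht e hX e2
  have e4 := P.s3 e3 e1.1 e1.2
  exact ⟨e1.1, e1.2, e3, e4.1, e4.2⟩

/-- The same with `P` odd. -/
theorem gateR {c0 c1 f0 f1 g0 g1 X f0' f1' g0' g1' Y : ℕ} (P : PN f0 f1 g0 g1 X)
    (Q : PN f0' f1' g0' g1' Y) (h0 : c0 + f0 + g0' = 4) (h1 : c1 + f1 + g1' = 4)
    (h2 : c0 + c1 + 1 = 4) (hY : Y % 2 = 0) (hX : X % 2 = 1) (ht : X ≤ Y + 1) :
    g0' = 1 ∧ g1' = 1 ∧ Y = 2 ∧ f0' = 2 ∧ f1' = 2 := by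
  have e := P.s2 hX
  have e1 := ones' h0 h1 h2 (e ▸ P.l1) Q.b1 Q.b3
  have e2 : Y ≤ 2 := by
    have := Q.l2
    rw [e1.1, e1.2] at this
    exact this
  have e3 := two ht e hY e2
  have e4 := Q.s4 e3 e1.1 e1.2
  exact ⟨e1.1, e1.2, e3, e4.1, e4.2⟩

theorem c2 {c f g : ℕ} (h : c + f + g = 4) (n : 1 ≤ c) (hf : f = 2) (hg : g = 2) : False := by
  omega

theorem c1f {c f g : ℕ} (h : c + f + g = 4) (n : 1 ≤ c) (hf : f = 2) (hg : 1 ≤ g) : c = 1 := by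
  omega

theorem c1g {c f g : ℕ} (h : c + f + g = 4) (n : 1 ≤ c) (hf : 1 ≤ f) (hg : g = 2) :
    c = 1 ∧ f = 1 := by
  omega

theorem c1f' {c f g : ℕ} (h : c + f + g = 4) (n : 1 ≤ c) (hf : f = 2) (hg : 1 ≤ g) :
    c = 1 ∧ g = 1 := by
  omega

theorem oeo {X Y D : ℕ} (h : (X + Y) % 2 = D % 2) (hX : X % 2 = 1) (hD : D = 1) : Y % 2 = 0 := by
  subst hD
  omega

theorem oee {X Y D : ℕ} (h : (X + Y) % 2 = D % 2) (hX : X % 2 = 0) (hD : D = 1) : Y % 2 = 1 := by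
  subst hD
  omega

theorem ooo {X Y D : ℕ} (h : (X + Y) % 2 = D % 2) (hX : X % 2 = 1) (hD : D = 2) : Y % 2 = 1 := by
  subst hD
  omega

theorem eee {X Y D : ℕ} (h : (X + Y) % 2 = D % 2) (hX : X % 2 = 0) (hD : D = 2) : Y % 2 = 0 := by
  subst hD
  omega

theorem three {D0 D1 D2 : ℕ} (u : D0 + D1 + D2 = 4) (u0 : 1 ≤ D0) (u1 : 1 ≤ D1) (u2 : 1 ≤ D2) :
    (D0 = 2 ∧ D1 = 1 ∧ D2 = 1) ∨ (D0 = 1 ∧ D1 = 2 ∧ D2 = 1) ∨ (D0 = 1 ∧ D1 = 1 ∧ D2 = 2) := by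
  omega

/-- The main analysis: poles `0, 1, 2`, complete gates `1` and `2`, and the vertex `b_0`. -/
theorem analysis {f00 f01 g00 g01 X0 f10 f11 g10 g11 X1 f20 f21 g20 g21 X2 D0 D1 D2
    c10 c11 c20 c21 c01 : ℕ} (P0 : PN f00 f01 g00 g01 X0) (P1 : PN f10 f11 g10 g11 X1)
    (P2 : PN f20 f21 g20 g21 X2) (G : GF X0 X1 X2 D0 D1 D2)
    (ha1 : c10 + f20 + g00 = 4) (hb1 : c11 + f21 + g01 = 4) (hc1 : c10 + c11 + D1 = 4)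
    (ha2 : c20 + f00 + g10 = 4) (hb2 : c21 + f01 + g11 = 4) (hc2 : c20 + c21 + D2 = 4)
    (hb0 : c01 + f11 + g21 = 4) (n1 : 1 ≤ c10) (n2 : 1 ≤ c11) (n3 : 1 ≤ c20) (n4 : 1 ≤ c21)
    (n5 : 1 ≤ c01) : c01 = 1 ∧ D0 = 1 := by
  have q1 : (X0 + X2) % 2 = D1 % 2 := by rw [add_comm]; exact G.p1
  have q2 := G.p2
  rcases three G.u G.u0 G.u1 G.u2 with ⟨d0, d1, d2⟩ | ⟨d0, d1, d2⟩ | ⟨d0, d1, d2⟩
  · exfalso
    rcases Nat.mod_two_eq_zero_or_one X0 with h | h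
    · have o2 := oee q1 h d1
      have o1 := oee q2 h d2
      have e1 := gateR P2 P0 ha1 hb1 (d1 ▸ hc1) h o2 (d1 ▸ G.t1)
      have e2 := gateL P0 P1 ha2 hb2 (d2 ▸ hc2) o1 h (d2 ▸ G.t2')
      exact absurd (e1.2.2.2.1.symm.trans e2.1) (by decide)
    · have o2 := oeo q1 h d1
      have o1 := oeo q2 h d2
      have e1 := gateL P2 P0 ha1 hb1 (d1 ▸ hc1) h o2 (d1 ▸ G.t1')
      have e2 := gateR P0 P1 ha2 hb2 (d2 ▸ hc2) o1 h (d2 ▸ G.t2)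
      exact c2 hb0 n5 e2.2.2.2.2 e1.2.2.2.2
  · refine ⟨?_, d0⟩
    rcases Nat.mod_two_eq_zero_or_one X0 with h | h
    · have o2 := eee q1 h d1
      have o1 := oee q2 h d2
      have e2 := gateL P0 P1 ha2 hb2 (d2 ▸ hc2) o1 h (d2 ▸ G.t2')
      have e3 := c1g ha1 n1 P2.a1 e2.2.2.2.1
      have e4 := c1g hb1 n2 P2.a3 e2.2.2.2.2
      have e5 : X2 ≤ 2 := by
        have := P2.l1
        rw [e3.2, e4.2] at this
        exact this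
      have e6 : X2 = 2 := two (d0 ▸ G.t0) (P1.s2 o1) o2 e5
      have e7 := P2.s3 e6 e3.2 e4.2
      exact (c1g hb0 n5 P1.a3 e7.2).1
    · have o2 := ooo q1 h d1
      have o1 := oeo q2 h d2
      have e2 := gateR P0 P1 ha2 hb2 (d2 ▸ hc2) o1 h (d2 ▸ G.t2)
      exact c1f hb0 n5 e2.2.2.2.2 P2.b3
  · refine ⟨?_, d0⟩
    rcases Nat.mod_two_eq_zero_or_one X0 with h | h
    · have o2 := oee q1 h d1
      have o1 := eee q2 h d2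
      have e2 := gateR P2 P0 ha1 hb1 (d1 ▸ hc1) h o2 (d1 ▸ G.t1)
      have e3 := c1f' ha2 n3 e2.2.2.2.1 P1.b1
      have e4 := c1f' hb2 n4 e2.2.2.2.2 P1.b3
      have e5 : X1 ≤ 2 := by
        have := P1.l2
        rw [e3.2, e4.2] at this
        exact this
      have e6 : X1 = 2 := two (d0 ▸ G.t0') (P2.s2 o2) o1 e5
      have e7 := P1.s4 e6 e3.2 e4.2
      exact c1f hb0 n5 e7.2 P2.b3
    · have o2 := oeo q1 h d1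
      have o1 := ooo q2 h d2
      have e1 := gateL P2 P0 ha1 hb1 (d1 ▸ hc1) h o2 (d1 ▸ G.t1')
      exact (c1g hb0 n5 P1.a3 e1.2.2.2.2).1

/-- Poles with even symmetric differences are impossible. -/
theorem analysis2 {X0 X1 X2 D0 D1 D2 : ℕ} (h0 : X0 % 2 = 0) (h1 : X1 % 2 = 0) (h2 : X2 % 2 = 0)
    (G : GF X0 X1 X2 D0 D1 D2) : False := by
  have q0 := G.p0
  have q1 := G.p1
  have q2 := G.p2
  rcases three G.u G.u0 G.u1 G.u2 with ⟨d0, d1, d2⟩ | ⟨d0, d1, d2⟩ | ⟨d0, d1, d2⟩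
  · clear G q0 q1
    subst d2
    omega
  · clear G q0 q1
    subst d2
    omega
  · clear G q0 q2
    subst d1
    omega

end Pool.Agent.U299.CC
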