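import Pool.Agent.U299.CC.Net

/-!
# Matching covers and cycle covers give flows
-/

set_option autoImplicit false

namespace Pool.Agent.U299.CC

variable {V : Type}

/-- Labels of the `k`-th edge at a vertex, if `m i` is the number of the edge at the vertex which
is in the `i`-th perfect matching. -/
def lab (m : Fin 4 → Fin 3) (k : Fin 3) : Finset ℕ :=
  (Finset.range 4).filter fun l =>
    (Finset.univ.filter fun i : Fin 4 => i.val ≠ l ∧ m i = k).card % 2 = 0

theorem lab_v3 : ∀ m : Fin 4 → Fin 3, (∀ k, ∃ i, m i = k) → V3 (lab m 0) (lab m 1) (lab m 2) := by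
  unfold V3 Kir lab
  decide +kernel

theorem Good.index [Fintype V] {nb : V → Fin 3 → V} (hN : Good nb) :
    5 ≤ excessiveIndex (gr nb) := by
  classical
  refine le_iInf fun ⟨k, M, hM, hc⟩ => ?_
  by_contra hk
  have hk : k < 5 := by
    simp only [not_le] at hk
    exact_mod_cast hk
  -- there is a vertex
  have hv : Nonempty V := by
    by_contra hV
    rw [not_nonempty_iff] at hV
    exact hN.nodf ⟨fun _ _ => ∅, fun v => hV.elim v, fun v => hV.elim v⟩
  obtain ⟨v0⟩ := hv
  have hk0 : 0 < k := by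
    obtain ⟨j, _⟩ := hc s(v0, nb v0 0) ((SimpleGraph.mem_edgeSet _).2 (hN.gr_adj.2 ⟨0, rfl⟩))
    exact lt_of_le_of_lt (Nat.zero_le _) j.2
  let f : Fin 4 → Fin k := fun i => if h : i.val < k then ⟨i.val, h⟩ else ⟨0, hk0⟩
  have hf : ∀ j : Fin k, ∃ i, f i = j := by
    intro j
    have hj := j.2
    refine ⟨⟨j.val, by omega⟩, ?_⟩
    simp [f]
  have hex : ∀ (i : Fin 4) (v : V), ∃ m, ∀ k', (M (f i)).Adj v (nb v k') ↔ m = k' := by
    intro i v
    obtain ⟨w, hw, hw'⟩ := (hM (f i)).1 ((hM (f i)).2 v)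
    obtain ⟨m, hm⟩ := hN.gr_adj.1 ((M (f i)).adj_sub hw)
    refine ⟨m, fun k' => ⟨fun h => ?_, fun h => ?_⟩⟩
    · exact hN.inj v (hm.trans (hw' _ h).symm)
    · rw [← h, hm]
      exact hw
  choose m hm using hex
  apply hN.nodf
  refine ⟨fun v k' => lab (fun i => m i v) k', ?_, ?_⟩
  · intro v k1 k2 h
    unfold lab
    have : ∀ i, m i (nb v k1) = k2 ↔ m i v = k1 := by
      intro i
      rw [← hm, ← hm, h]
      exact ⟨fun h => h.symm, fun h => h.symm⟩
    simp only [this]
  · intro v
    apply lab_v3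
    intro k'
    obtain ⟨j, hj⟩ := hc s(v, nb v k') ((SimpleGraph.mem_edgeSet _).2 (hN.gr_adj.2 ⟨k', rfl⟩))
    obtain ⟨i, hi⟩ := hf j
    refine ⟨i, ?_⟩
    rw [← hm, hi]
    exact hj

/-- Degree sums. -/
theorem Cub.deg_sum [Fintype V] {nb : V → Fin 3 → V} (hN : Cub nb) (H : SimpleGraph V)
    (hH : ∀ v w, H.Adj v w → Aj nb v w) [∀ v w, Decidable (H.Adj v w)] :
    2 * H.edgeSet.ncard = ∑ v, ∑ k, if H.Adj v (nb v k) then 1 else 0 := by
  classical
  have h1 := H.sum_degrees_eq_twice_card_edges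
  have h2 : H.edgeSet.ncard = H.edgeFinset.card := by
    rw [← SimpleGraph.coe_edgeFinset, Set.ncard_coe_finset]
  rw [h2, ← h1]
  refine Finset.sum_congr rfl fun v _ => ?_
  rw [← Finset.card_filter, ← SimpleGraph.card_neighborFinset_eq_degree]
  have : H.neighborFinset v =
      (Finset.univ.filter fun k => H.Adj v (nb v k)).image (nb v) := by
    ext w
    simp only [SimpleGraph.mem_neighborFinset, Finset.mem_image, Finset.mem_filter,
      Finset.mem_univ, true_and]
    constructor
    · intro h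
      obtain ⟨k, rfl⟩ := hH v w h
      exact ⟨k, h, rfl⟩
    · rintro ⟨k, h, rfl⟩
      exact h
  rw [this, Finset.card_image_of_injective _ (hN.inj v)]

theorem Cub.card_edges [Fintype V] {nb : V → Fin 3 → V} (hN : Cub nb) :
    2 * (gr nb).edgeSet.ncard = 3 * Fintype.card V := by
  classical
  rw [hN.deg_sum (gr nb) fun v w h => hN.gr_adj.1 h]
  have : ∀ v, ∀ k : Fin 3, (if (gr nb).Adj v (nb v k) then 1 else 0) = 1 := fun v k =>
    if_pos (hN.gr_adj.2 ⟨k, rfl⟩)
  simp only [this]
  simp [mul_comm]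

theorem kir_of_even {p : Fin 3 → Prop} [DecidablePred p]
    (h : Even (Finset.univ.filter p).card) : (p 0 ∧ ¬ p 1 ∨ p 1 ∧ ¬ p 0) ↔ p 2 := by
  rw [Finset.card_filter, Fin.sum_univ_three] at h
  by_cases h0 : p 0 <;> by_cases h1 : p 1 <;> by_cases h2 : p 2 <;>
    simp [h0, h1, h2] at h ⊢ <;> revert h <;> decide

theorem card_kir {A B C : Finset ℕ} (h : Kir A B C) :
    4 ≤ A.card + B.card + C.card ∧ (¬ V3 A B C → 6 ≤ A.card + B.card + C.card) := by
  have hk := h
  obtain ⟨h1, h2, h3, h4⟩ := h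
  have ha := h2.card_pos
  have hb := h3.card_pos
  have hc := h4.card_pos
  have e1 : (symmDiff A B).card + 2 * (A ∩ B).card = A.card + B.card := by
    have e2 : (symmDiff A B).card = (A \ B).card + (B \ A).card := by
      rw [symmDiff_def, Finset.sup_eq_union, Finset.card_union_of_disjoint]
      exact disjoint_sdiff_sdiff
    have e3 := Finset.card_sdiff_add_card_inter A B
    have e4 := Finset.card_sdiff_add_card_inter B A
    rw [Finset.inter_comm B A] at e4
    omega
  rw [h1] at e1
  constructor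
  · omega
  · intro hV
    by_contra hlt
    apply hV
    exact ⟨hk, by omega⟩

/-- The number of vertices which lie on more than two cycles. -/
noncomputable def defects [Fintype V] (φ : V → Fin 3 → Finset ℕ) : ℕ := by
  classical
  exact (Finset.univ.filter fun v => ¬ V3 (φ v 0) (φ v 1) (φ v 2)).card

theorem Cub.cover_length [Fintype V] {nb : V → Fin 3 → V} (hN : Cub nb) {n : ℕ}
    (hn : ∀ φ, Con nb φ → (∀ v, Kir (φ v 0) (φ v 1) (φ v 2)) → n ≤ defects φ)
    (c : CycleCover (gr nb)) : 2 * Fintype.card V + n ≤ c.length := by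
  classical
  let φ : V → Fin 3 → Finset ℕ := fun v k =>
    (Finset.univ.filter fun j : Fin c.k => (c.C j).Adj v (nb v k)).map Fin.valEmbedding
  have hmem : ∀ v k (j : Fin c.k), j.val ∈ φ v k ↔ (c.C j).Adj v (nb v k) := by
    intro v k j
    simp only [φ, Finset.mem_map, Finset.mem_filter, Finset.mem_univ, true_and,
      Fin.valEmbedding_apply]
    constructor
    · rintro ⟨j', h, hj⟩
      rwa [← Fin.ext hj]
    · intro h
      exact ⟨j, h, rfl⟩
  have hmem' : ∀ v k (x : ℕ), x ∈ φ v k → ∃ j : Fin c.k, j.val = x := by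
    intro v k x hx
    simp only [φ, Finset.mem_map, Finset.mem_filter, Finset.mem_univ, true_and,
      Fin.valEmbedding_apply] at hx
    obtain ⟨j, _, hj⟩ := hx
    exact ⟨j, hj⟩
  have hcon : Con nb φ := by
    intro v k k' h
    simp only [φ, h]
    congr 1
    ext j
    simp only [Finset.mem_filter, Finset.mem_univ, true_and]
    exact ⟨fun h => h.symm, fun h => h.symm⟩
  have hne : ∀ v k, (φ v k).Nonempty := by
    intro v k
    obtain ⟨j, hj⟩ := c.cov s(v, nb v k) ((SimpleGraph.mem_edgeSet _).2 (hN.gr_adj.2 ⟨k, rfl⟩))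
    exact ⟨j.val, (hmem v k j).2 hj⟩
  have hkir : ∀ v, Kir (φ v 0) (φ v 1) (φ v 2) := by
    intro v
    refine ⟨?_, hne v 0, hne v 1, hne v 2⟩
    ext x
    rw [Finset.mem_symmDiff]
    by_cases hx : ∃ j : Fin c.k, j.val = x
    · obtain ⟨j, rfl⟩ := hx
      rw [hmem, hmem, hmem]
      apply kir_of_even (p := fun k => (c.C j).Adj v (nb v k))
      have := (c.cyc j).2 v
      have e : (c.C j).neighborSet v =
          ((Finset.univ.filter fun k => (c.C j).Adj v (nb v k)).image (nb v) : Finset V) := by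
        ext w
        simp only [SimpleGraph.Subgraph.mem_neighborSet, Finset.coe_image, Set.mem_image,
          Finset.coe_filter, Finset.mem_univ, true_and, Set.mem_ofPred_eq]
        constructor
        · intro h
          obtain ⟨k, rfl⟩ := hN.gr_adj.1 ((c.C j).adj_sub h)
          exact ⟨k, h, rfl⟩
        · rintro ⟨k, h, rfl⟩
          exact h
      rw [e, Set.ncard_coe_finset, Finset.card_image_of_injective _ (hN.inj v)] at this
      exact this
    · have h0 : ∀ k, x ∉ φ v k := fun k h => hx (hmem' v k x h)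
      simp [h0]
  have hdef := hn φ hcon hkir
  -- twice the length
  have hlen : 2 * c.length = ∑ v, ∑ k, (φ v k).card := by
    unfold CycleCover.length
    rw [Finset.mul_sum]
    have : ∀ j, 2 * (c.C j).edgeSet.ncard =
        ∑ v, ∑ k, if (c.C j).Adj v (nb v k) then 1 else 0 := by
      intro j
      have := hN.deg_sum (c.C j).spanningCoe fun v w h => hN.gr_adj.1 ((c.C j).adj_sub h)
      have e : (c.C j).spanningCoe.edgeSet = (c.C j).edgeSet := by
        ext e
        induction e with
        | _ a b => simp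
      rw [e] at this
      rw [this]
      rfl
    rw [Finset.sum_congr rfl fun j _ => this j, Finset.sum_comm]
    refine Finset.sum_congr rfl fun v _ => ?_
    rw [Finset.sum_comm]
    refine Finset.sum_congr rfl fun k _ => ?_
    rw [← Finset.card_filter]
    simp only [φ, Finset.card_map]
  have hsum : 4 * Fintype.card V + 2 * defects φ ≤ ∑ v, ∑ k, (φ v k).card := by
    have e : 4 * Fintype.card V + 2 * defects φ =
        ∑ v : V, (4 + 2 * if ¬ V3 (φ v 0) (φ v 1) (φ v 2) then 1 else 0) := by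
      rw [Finset.sum_add_distrib, ← Finset.mul_sum, ← Finset.card_filter]
      unfold defects
      simp [mul_comm]
    rw [e]
    refine Finset.sum_le_sum fun v _ => ?_
    rw [Fin.sum_univ_three]
    obtain ⟨h1, h2⟩ := card_kir (hkir v)
    by_cases h : V3 (φ v 0) (φ v 1) (φ v 2)
    · rw [if_neg (by simpa using h)]
      omega
    · rw [if_pos h]
      have := h2 h
      omega
  omega

theorem Cub.scc_ge [Fintype V] {nb : V → Fin 3 → V} (hN : Cub nb) {n : ℕ}
    (hn : ∀ φ, Con nb φ → (∀ v, Kir (φ v 0) (φ v 1) (φ v 2)) → n ≤ defects φ) :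
    4 * ((gr nb).edgeSet.ncard : ℕ∞) + 3 * (n : ℕ∞) ≤ 3 * scc (gr nb) := by
  have h1 : ((2 * Fintype.card V + n : ℕ) : ℕ∞) ≤ scc (gr nb) :=
    le_iInf fun c => by exact_mod_cast hN.cover_length hn c
  have h2 : 4 * ((gr nb).edgeSet.ncard : ℕ∞) + 3 * (n : ℕ∞) =
      3 * ((2 * Fintype.card V + n : ℕ) : ℕ∞) := by
    have := hN.card_edges
    have e : 4 * (gr nb).edgeSet.ncard + 3 * n = 3 * (2 * Fintype.card V + n) := by omega
    exact_mod_cast e
  rw [h2]
  exact mul_le_mul_right h1 3

end Pool.Agent.U299.CC
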