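import Mathlib
import Pool.Agent.N366.RS.Stm

/-!
# Cycle covers and the family `F`

Conventions of problem MP_dce662_co.
-/

set_option autoImplicit false

namespace Pool.Agent.U299.CC

open Pool.Agent.N366.RS (IsSnark)

/-- A cycle: a connected subgraph in which every vertex has even degree. -/
def IsCyc {V : Type} {G : SimpleGraph V} (C : G.Subgraph) : Prop :=
  C.Connected ∧ ∀ v, Even (C.neighborSet v).ncard

/-- A cycle cover: a finite family of cycles whose edge sets together contain every edge. -/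
structure CycleCover {V : Type} (G : SimpleGraph V) where
  k : ℕ
  C : Fin k → G.Subgraph
  cyc : ∀ j, IsCyc (C j)
  cov : ∀ e ∈ G.edgeSet, ∃ j, e ∈ (C j).edgeSet

/-- The length of a cycle cover. -/
noncomputable def CycleCover.length {V : Type} {G : SimpleGraph V} (c : CycleCover G) : ℕ :=
  ∑ j, (c.C j).edgeSet.ncard

/-- The minimum length of a cycle cover (`⊤` if there is none). -/
noncomputable def scc {V : Type} (G : SimpleGraph V) : ℕ∞ := ⨅ c : CycleCover G, (c.length : ℕ∞)

/-- `k` perfect matchings whose union contains every edge. -/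
def HasMatchingCover {V : Type} (G : SimpleGraph V) (k : ℕ) : Prop :=
  ∃ M : Fin k → G.Subgraph, (∀ j, (M j).IsPerfectMatching) ∧
    ∀ e ∈ G.edgeSet, ∃ j, e ∈ (M j).edgeSet

/-- The excessive index: the least `k` such that `G` has a `k`-cover (`⊤` if there is none). -/
noncomputable def excessiveIndex {V : Type} (G : SimpleGraph V) : ℕ∞ :=
  ⨅ k : {k : ℕ // HasMatchingCover G k}, (k.1 : ℕ∞)

/-- The ten new vertices `a_i`, `b_i`, `c_i`, `u` of the construction. -/
inductive Out where
  | a (i : Fin 3)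
  | b (i : Fin 3)
  | c (i : Fin 3)
  | u
  deriving DecidableEq, Fintype

/-- The choices in the construction: snarks `G_i` with excessive index at least five, an edge
`x_i y_i` of each of them, and the labelling of the other neighbours of `x_i` and `y_i`
(`xn i false` is `x_i^0`, `xn i true` is `x_i^1`, and likewise for `y_i`). -/
structure Choice where
  V : Fin 3 → Type
  fin : ∀ i, Finite (V i)
  G : ∀ i, SimpleGraph (V i)
  snark : ∀ i, IsSnark (G i)
  index : ∀ i, 5 ≤ excessiveIndex (G i)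
  x : ∀ i, V i
  y : ∀ i, V i
  xn : ∀ i, Bool → V i
  yn : ∀ i, Bool → V i
  hx : ∀ i, (G i).neighborSet (x i) = {y i, xn i false, xn i true}
  hy : ∀ i, (G i).neighborSet (y i) = {x i, yn i false, yn i true}

namespace Choice

variable (ch : Choice)

/-- The vertices of the constructed graph: those of `H_i = G_i - {x_i, y_i}` and the new ones. -/
abbrev Vt : Type := (Σ i : Fin 3, {v : ch.V i // v ≠ ch.x i ∧ v ≠ ch.y i}) ⊕ Out

/-- The edges of the constructed graph (each listed in one direction at least). -/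
inductive Edge : ch.Vt → ch.Vt → Prop
  | old (i : Fin 3) (v w : {v : ch.V i // v ≠ ch.x i ∧ v ≠ ch.y i}) (h : (ch.G i).Adj v.1 w.1) :
      Edge (Sum.inl ⟨i, v⟩) (Sum.inl ⟨i, w⟩)
  | ax (i : Fin 3) (v : {v : ch.V (i + 1) // v ≠ ch.x (i + 1) ∧ v ≠ ch.y (i + 1)})
      (h : v.1 = ch.xn (i + 1) false) : Edge (Sum.inr (Out.a i)) (Sum.inl ⟨i + 1, v⟩)
  | ay (i : Fin 3) (v : {v : ch.V (i - 1) // v ≠ ch.x (i - 1) ∧ v ≠ ch.y (i - 1)})
      (h : v.1 = ch.yn (i - 1) false) : Edge (Sum.inr (Out.a i)) (Sum.inl ⟨i - 1, v⟩)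
  | bx (i : Fin 3) (v : {v : ch.V (i + 1) // v ≠ ch.x (i + 1) ∧ v ≠ ch.y (i + 1)})
      (h : v.1 = ch.xn (i + 1) true) : Edge (Sum.inr (Out.b i)) (Sum.inl ⟨i + 1, v⟩)
  | bY (i : Fin 3) (v : {v : ch.V (i - 1) // v ≠ ch.x (i - 1) ∧ v ≠ ch.y (i - 1)})
      (h : v.1 = ch.yn (i - 1) true) : Edge (Sum.inr (Out.b i)) (Sum.inl ⟨i - 1, v⟩)
  | ca (i : Fin 3) : Edge (Sum.inr (Out.c i)) (Sum.inr (Out.a i))
  | cb (i : Fin 3) : Edge (Sum.inr (Out.c i)) (Sum.inr (Out.b i))
  | cu (i : Fin 3) : Edge (Sum.inr (Out.c i)) (Sum.inr Out.u)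

/-- The constructed graph. -/
def graph : SimpleGraph ch.Vt := SimpleGraph.fromRel ch.Edge

end Choice

/-- `G` belongs to the family `F` (up to isomorphism). -/
def InF {V : Type} (G : SimpleGraph V) : Prop := ∃ ch : Choice, Nonempty (G ≃g ch.graph)

end Pool.Agent.U299.CC
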