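import Pool.Agent.U299.CC.Fam

/-!
# Existence of cycle covers
-/

set_option autoImplicit false

namespace Pool.Agent.U299.CC

theorem isCyc_of_isCycle {V : Type} {G : SimpleGraph V} {u : V} {p : G.Walk u u}
    (hp : p.IsCycle) : IsCyc p.toSubgraph := by
  refine ⟨p.toSubgraph_connected, fun v => ?_⟩
  by_cases hv : v ∈ p.support
  · rw [hp.ncard_neighborSet_toSubgraph_eq_two hv]
    decide
  · have : p.toSubgraph.neighborSet v = ∅ := by
      ext w
      simp only [SimpleGraph.Subgraph.mem_neighborSet, Set.mem_empty_iff_false, iff_false]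
      intro h
      exact hv ((SimpleGraph.Walk.mem_verts_toSubgraph p).1 h.fst_mem)
    rw [this, Set.ncard_empty]
    exact Even.zero

/-- Every edge is on a cycle. -/
theorem Good.on_cycle {V : Type} [Fintype V] {nb : V → Fin 3 → V} (hN : Good nb) {v w : V}
    (h : (gr nb).Adj v w) : ∃ (u : V) (p : (gr nb).Walk u u), p.IsCycle ∧ s(v, w) ∈ p.edges := by
  classical
  rw [← SimpleGraph.adj_and_reachable_delete_edges_iff_exists_cycle]
  refine ⟨h, ?_⟩
  by_contra hr
  let S : V → Bool := fun x => decide (((gr nb).deleteEdges {s(v, w)}).Reachable v x)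
  have hcut := hN.cut_le S {s(v, w)} (by
    intro x y hxy hx hy
    by_contra hn
    simp only [S, decide_eq_true_eq, decide_eq_false_iff_not] at hx hy
    apply hy
    refine hx.trans (SimpleGraph.Adj.reachable ?_)
    rw [SimpleGraph.deleteEdges_adj]
    exact ⟨hN.gr_adj.2 hxy, hn⟩)
  rw [Set.ncard_singleton] at hcut
  have hv : S v = true := by simp [S]
  have hw : S w = false := by simp [S, hr]
  rcases hN.cg S with h | ⟨q, h⟩ | ⟨h, _⟩
  · omega
  · have e1 := h v
    have e2 := h w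
    rw [hv] at e1
    rw [hw, ← e1] at e2
    exact absurd e2 (by simp)
  · omega

/-- There is a cycle cover. -/
theorem Good.cover {V : Type} [Fintype V] {nb : V → Fin 3 → V} (hN : Good nb) :
    Nonempty (CycleCover (gr nb)) := by
  classical
  have h : ∀ e : (gr nb).edgeSet, ∃ C : (gr nb).Subgraph, IsCyc C ∧ e.1 ∈ C.edgeSet := by
    rintro ⟨e, he⟩
    induction e with
    | _ v w =>
      obtain ⟨u, p, hp, hm⟩ := hN.on_cycle ((SimpleGraph.mem_edgeSet _).1 he)
      exact ⟨p.toSubgraph, isCyc_of_isCycle hp, (SimpleGraph.Walk.mem_edges_toSubgraph p).2 hm⟩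
  choose C hC1 hC2 using h
  let f := Fintype.equivFin (gr nb).edgeSet
  refine ⟨⟨Fintype.card (gr nb).edgeSet, fun j => C (f.symm j), fun j => hC1 _, ?_⟩⟩
  intro e he
  refine ⟨f ⟨e, he⟩, ?_⟩
  simp only [Equiv.symm_apply_apply]
  exact hC2 ⟨e, he⟩

theorem excess' (c : ℕ) : ∃ (V : Type) (_ : Finite V) (G : SimpleGraph V),
    InF G ∧ Nonempty (CycleCover G) ∧
    4 * (G.edgeSet.ncard : ℕ∞) + 3 * (c : ℕ∞) ≤ 3 * scc G := by
  obtain ⟨V, _, nb, x, hG, hP, hD⟩ := tower c
  have hW := hP.wdef3 hD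
  refine ⟨W nb x, inferInstance, gr (wnb nb x), inF hG hP, (hP.wgood hG).cover, ?_⟩
  refine hP.wcub.scc_ge fun φ hc hk => ?_
  have h1 := defects_ge hW hc hk
  have h2 : c < 3 ^ c := Nat.lt_pow_self (by norm_num)
  omega

end Pool.Agent.U299.CC
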