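import Pool.Agent.U299.CC.Wind

/-!
# The Petersen graph
-/

set_option autoImplicit false

namespace Pool.Agent.U299.CC

/-- The Petersen graph: vertices `0, …, 4` form the outer cycle, `i` is adjacent to `5 + i`. -/
def pnb : Fin 10 → Fin 3 → Fin 10 :=
  ![![5, 1, 4], ![6, 2, 0], ![7, 3, 1], ![8, 4, 2], ![9, 0, 3],
    ![0, 7, 8], ![1, 8, 9], ![2, 9, 5], ![3, 5, 6], ![4, 6, 7]]

theorem pcub : Cub pnb := by
  refine ⟨?_, ?_, ?_⟩
  · unfold Function.Injective pnb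
    decide
  · unfold pnb
    decide
  · unfold pnb
    decide

theorem ppole : Pole pnb 0 where
  toCub := pcub
  hxy := rfl

theorem ptriAux : ∀ x : Fin 10, ∀ k l m : Fin 3, pnb (pnb (pnb x k) l) m ≠ x := by
  unfold pnb
  decide +kernel

theorem ptri : TriFree pnb := by
  rintro x y z ⟨k, rfl⟩ ⟨l, rfl⟩ ⟨m, h⟩
  exact ptriAux x k l m h

theorem pquadAux : ∀ x : Fin 10, ∀ k l : Fin 3, x ≠ pnb (pnb x k) l → ∀ m : Fin 3,
    pnb x k ≠ pnb (pnb (pnb x k) l) m → ∀ n : Fin 3, pnb (pnb (pnb (pnb x k) l) m) n ≠ x := by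
  unfold pnb
  decide +kernel

theorem pquad : QuadFree pnb := by
  rintro x y z w ⟨k, rfl⟩ ⟨l, rfl⟩ ⟨m, rfl⟩ ⟨n, h⟩ h1 h2
  exact pquadAux x k l h1 m h2 n h

set_option synthInstance.maxSize 100000 in
set_option maxRecDepth 100000 in
theorem pcutAux : ∀ b0 b1 b2 b3 b4 : Bool, dd b0 b1 + dd b1 b2 + dd b2 b3 + dd b3 b4 + dd b4 b0 < 4 →
    ∀ b5 b6 b7 b8 b9 : Bool, dd b0 b1 + dd b1 b2 + dd b2 b3 + dd b3 b4 + dd b4 b0 +
      dd b0 b5 + dd b1 b6 + dd b2 b7 + dd b3 b8 + dd b4 b9 +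
      dd b5 b7 + dd b6 b8 + dd b7 b9 + dd b8 b5 + dd b9 b6 < 4 →
    (∃ q, ∀ p, ![b0, b1, b2, b3, b4, b5, b6, b7, b8, b9] p = q) ∨
    (3 ≤ dd b0 b1 + dd b1 b2 + dd b2 b3 + dd b3 b4 + dd b4 b0 +
      dd b0 b5 + dd b1 b6 + dd b2 b7 + dd b3 b8 + dd b4 b9 +
      dd b5 b7 + dd b6 b8 + dd b7 b9 + dd b8 b5 + dd b9 b6 ∧
      ∃ p q, ![b0, b1, b2, b3, b4, b5, b6, b7, b8, b9] p = !q ∧
      ∀ p', p' ≠ p → ![b0, b1, b2, b3, b4, b5, b6, b7, b8, b9] p' = q) := by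
  decide +kernel

theorem sum_ten (F : Fin 10 → ℕ) :
    ∑ v, F v = F 0 + F 1 + F 2 + F 3 + F 4 + F 5 + F 6 + F 7 + F 8 + F 9 := by
  rw [Fin.sum_univ_castSucc, Fin.sum_univ_castSucc, Fin.sum_univ_eight]
  rfl

theorem pcut_eq (S : Fin 10 → Bool) : cut pnb S =
    dd (S 0) (S 1) + dd (S 1) (S 2) + dd (S 2) (S 3) + dd (S 3) (S 4) + dd (S 4) (S 0) +
      dd (S 0) (S 5) + dd (S 1) (S 6) + dd (S 2) (S 7) + dd (S 3) (S 8) + dd (S 4) (S 9) +
      dd (S 5) (S 7) + dd (S 6) (S 8) + dd (S 7) (S 9) + dd (S 8) (S 5) + dd (S 9) (S 6) := by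
  have e : cut pnb S =
      (gg (S 0) (S 5) + gg (S 0) (S 1) + gg (S 0) (S 4)) +
      (gg (S 1) (S 6) + gg (S 1) (S 2) + gg (S 1) (S 0)) +
      (gg (S 2) (S 7) + gg (S 2) (S 3) + gg (S 2) (S 1)) +
      (gg (S 3) (S 8) + gg (S 3) (S 4) + gg (S 3) (S 2)) +
      (gg (S 4) (S 9) + gg (S 4) (S 0) + gg (S 4) (S 3)) +
      (gg (S 5) (S 0) + gg (S 5) (S 7) + gg (S 5) (S 8)) +
      (gg (S 6) (S 1) + gg (S 6) (S 8) + gg (S 6) (S 9)) +
      (gg (S 7) (S 2) + gg (S 7) (S 9) + gg (S 7) (S 5)) +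
      (gg (S 8) (S 3) + gg (S 8) (S 5) + gg (S 8) (S 6)) +
      (gg (S 9) (S 4) + gg (S 9) (S 6) + gg (S 9) (S 7)) := by
    unfold cut
    rw [sum_ten]
    simp only [Fin.sum_univ_three]
    rfl
  rw [e]
  simp only [← gg_add]
  ring

theorem ten_eq (S : Fin 10 → Bool) (v : Fin 10) :
    S v = ![S 0, S 1, S 2, S 3, S 4, S 5, S 6, S 7, S 8, S 9] v := by
  fin_cases v <;> rfl

theorem pcutGood : CutGood pnb := by
  intro S
  have e := pcut_eq S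
  by_cases h : 4 ≤ cut pnb S
  · exact Or.inl h
  · right
    rw [e, not_le] at h
    have h0 : dd (S 0) (S 1) + dd (S 1) (S 2) + dd (S 2) (S 3) + dd (S 3) (S 4) +
        dd (S 4) (S 0) < 4 := by
      clear e
      omega
    have := pcutAux _ _ _ _ _ h0 _ _ _ _ _ h
    rw [← e] at this
    rcases this with ⟨q, hq⟩ | ⟨h3, p, q, h4, h5⟩
    · left
      exact ⟨q, fun x => by rw [ten_eq S x]; exact hq _⟩
    · right
      refine ⟨h3, p, q, by rw [ten_eq S p]; exact h4, fun y hy => ?_⟩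
      rw [ten_eq S y]
      exact h5 _ hy

/-! ### Flows -/

/-- Exactly one of three. -/
def E1 (x y z : Bool) : Bool := (x && !y && !z) || (!x && y && !z) || (!x && !y && z)

set_option synthInstance.maxSize 100000 in
set_option maxRecDepth 100000 in
theorem matchAux : ∀ s0 a0 a4 : Bool, E1 s0 a0 a4 = true → ∀ s1 a1, E1 s1 a1 a0 = true →
    ∀ s2 a2, E1 s2 a2 a1 = true → ∀ s3 a3, E1 s3 a3 a2 = true → ∀ s4, E1 s4 a4 a3 = true →
    ∀ b0 b3, E1 s0 b0 b3 = true → ∀ b1, E1 s3 b3 b1 = true → ∀ b4, E1 s1 b1 b4 = true →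
    ∀ b2, E1 s4 b4 b2 = true → E1 s2 b2 b0 = true →
    (s0 = true ∧ s1 = true ∧ s2 = true ∧ s3 = true ∧ s4 = true) ∨
    (s0 = true ∧ a1 = true ∧ b1 = true ∧ b2 = true ∧ a3 = true) ∨
    (s1 = true ∧ a2 = true ∧ b2 = true ∧ b3 = true ∧ a4 = true) ∨
    (s2 = true ∧ a3 = true ∧ b3 = true ∧ b4 = true ∧ a0 = true) ∨
    (s3 = true ∧ a4 = true ∧ b4 = true ∧ b0 = true ∧ a1 = true) ∨
    (s4 = true ∧ a0 = true ∧ b0 = true ∧ b1 = true ∧ a2 = true) := by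
  decide +kernel

theorem V3.e1 {A B C : Finset ℕ} (h : V3 A B C) :
    E1 (decide (A.card = 2)) (decide (B.card = 2)) (decide (C.card = 2)) = true := by
  obtain ⟨⟨_, h1, h2, h3⟩, h4⟩ := h
  have := h1.card_pos
  have := h2.card_pos
  have := h3.card_pos
  have : (A.card = 2 ∧ B.card = 1 ∧ C.card = 1) ∨ (A.card = 1 ∧ B.card = 2 ∧ C.card = 1) ∨
      (A.card = 1 ∧ B.card = 1 ∧ C.card = 2) := by omega
  rcases this with ⟨e1, e2, e3⟩ | ⟨e1, e2, e3⟩ | ⟨e1, e2, e3⟩ <;> rw [e1, e2, e3] <;> decide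

theorem five {a b : Fin 5 → ℕ} (h0 : ∀ i, a i ≠ a (i - 1))
    (h : ∀ i, (b i = a i ∧ b (i - 2) = a (i - 1)) ∨ (b i = a (i - 1) ∧ b (i - 2) = a i)) :
    False := by
  have n0 : a 0 ≠ a 4 := h0 0
  have n1 : a 1 ≠ a 0 := h0 1
  have n2 : a 2 ≠ a 1 := h0 2
  have n3 : a 3 ≠ a 2 := h0 3
  have n4 : a 4 ≠ a 3 := h0 4
  have g0 : (b 0 = a 0 ∧ b 3 = a 4) ∨ (b 0 = a 4 ∧ b 3 = a 0) := h 0
  have g1 : (b 1 = a 1 ∧ b 4 = a 0) ∨ (b 1 = a 0 ∧ b 4 = a 1) := h 1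
  have g2 : (b 2 = a 2 ∧ b 0 = a 1) ∨ (b 2 = a 1 ∧ b 0 = a 2) := h 2
  have g3 : (b 3 = a 3 ∧ b 1 = a 2) ∨ (b 3 = a 2 ∧ b 1 = a 3) := h 3
  have g4 : (b 4 = a 4 ∧ b 2 = a 3) ∨ (b 4 = a 3 ∧ b 2 = a 4) := h 4
  clear h0 h
  rcases g0 with ⟨x0, y0⟩ | ⟨x0, y0⟩ <;> rcases g2 with ⟨x2, y2⟩ | ⟨x2, y2⟩ <;>
    rcases g4 with ⟨x4, y4⟩ | ⟨x4, y4⟩ <;> rcases g1 with ⟨x1, y1⟩ | ⟨x1, y1⟩ <;>
    rcases g3 with ⟨x3, y3⟩ | ⟨x3, y3⟩ <;> omega

theorem pair_cases {a a' b b' : ℕ} (hb : b ≠ b')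
    (h : symmDiff ({a} : Finset ℕ) {a'} = symmDiff {b} {b'}) :
    (b = a ∧ b' = a') ∨ (b = a' ∧ b' = a) := by
  have h1 : b ∈ symmDiff ({b} : Finset ℕ) {b'} := by
    rw [Finset.mem_symmDiff]
    exact Or.inl ⟨by simp, by simpa using hb⟩
  have h2 : b' ∈ symmDiff ({b} : Finset ℕ) {b'} := by
    rw [Finset.mem_symmDiff]
    exact Or.inr ⟨by simp, by simpa using hb.symm⟩
  rw [← h, Finset.mem_symmDiff] at h1 h2
  simp only [Finset.mem_singleton] at h1 h2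
  rcases h1 with ⟨e, _⟩ | ⟨e, _⟩
  · left
    refine ⟨e, ?_⟩
    rcases h2 with ⟨e', _⟩ | ⟨e', _⟩
    · exact absurd (e.trans e'.symm) hb
    · exact e'
  · right
    refine ⟨e, ?_⟩
    rcases h2 with ⟨e', _⟩ | ⟨e', _⟩
    · exact e'
    · exact absurd (e.trans e'.symm) hb

/-- The case of a matching consisting of all spokes. -/
theorem spokes {A B S : Fin 5 → Finset ℕ} (hA : ∀ i, V3 (S i) (A i) (A (i - 1)))
    (hB : ∀ i, V3 (S i) (B i) (B (i - 2))) (hS : ∀ i, (S i).card = 2) : False := by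
  have one : ∀ {X Y Z : Finset ℕ}, V3 X Y Z → X.card = 2 → Y.card = 1 := by
    rintro X Y Z ⟨⟨_, h1, h2, h3⟩, h4⟩ h
    have := h2.card_pos
    have := h3.card_pos
    omega
  have hA1 : ∀ i, ∃ a, A i = {a} := fun i => Finset.card_eq_one.1 (one (hA i) (hS i))
  have hB1 : ∀ i, ∃ b, B i = {b} := fun i => Finset.card_eq_one.1 (one (hB i) (hS i))
  choose a ha using hA1
  choose b hb using hB1
  have ne : ∀ {X : Finset ℕ} {y z : ℕ}, V3 X {y} {z} → y ≠ z := by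
    rintro X y z h rfl
    have h1 := h.rot.1.1
    have h2 := h.1.2.1
    rw [symmDiff_self] at h1
    rw [← h1] at h2
    simp at h2
  refine five (a := a) (b := b) (fun i => ?_) (fun i => ?_)
  · have := hA i
    rw [ha, ha] at this
    exact ne this
  · have h1 := hA i
    have h2 := hB i
    rw [ha, ha] at h1
    rw [hb, hb] at h2
    exact pair_cases (ne h2) (h1.rot.1.1.trans h2.rot.1.1.symm)

/-- The case of a matching with exactly one spoke. -/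
theorem spoke1 {A B S : Fin 5 → Finset ℕ} (hA : ∀ i, V3 (S i) (A i) (A (i - 1)))
    (hB : ∀ i, V3 (S i) (B i) (B (i - 2))) (h0 : (S 0).card = 2) (h1 : (A 1).card = 2)
    (h2 : (B 1).card = 2) (h3 : (B 2).card = 2) (h4 : (A 3).card = 2) : False := by
  have hA0 : V3 (S 0) (A 0) (A 4) := hA 0
  have hA1 : V3 (S 1) (A 1) (A 0) := hA 1
  have hA2 : V3 (S 2) (A 2) (A 1) := hA 2
  have hA3 : V3 (S 3) (A 3) (A 2) := hA 3
  have hA4 : V3 (S 4) (A 4) (A 3) := hA 4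
  have hB0 : V3 (S 0) (B 0) (B 3) := hB 0
  have hB1 : V3 (S 1) (B 1) (B 4) := hB 1
  have hB2 : V3 (S 2) (B 2) (B 0) := hB 2
  have hB3 : V3 (S 3) (B 3) (B 1) := hB 3
  have hB4 : V3 (S 4) (B 4) (B 2) := hB 4
  refine spokes (A := ![A 0, S 1, B 4, S 4, A 4]) (S := ![S 0, A 1, B 1, B 2, A 3])
    (B := ![B 3, S 2, S 3, B 0, A 2]) ?_ ?_ ?_
  · intro i
    fin_cases i
    · exact hA0
    · change V3 (A 1) (S 1) (A 0)
      exact hA1.swap
    · change V3 (B 1) (B 4) (S 1)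
      exact hB1.rot
    · change V3 (B 2) (S 4) (B 4)
      exact hB4.rot.rot
    · change V3 (A 3) (A 4) (S 4)
      exact hA4.rot.swap
  · intro i
    fin_cases i
    · change V3 (S 0) (B 3) (B 0)
      exact hB0.rot.rot.swap.rot.rot.rot
    · change V3 (A 1) (S 2) (A 2)
      exact hA2.rot.rot
    · change V3 (B 1) (S 3) (B 3)
      exact hB3.rot.rot
    · change V3 (B 2) (B 0) (S 2)
      exact hB2.rot
    · change V3 (A 3) (A 2) (S 3)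
      exact hA3.rot
  · intro i
    fin_cases i
    · exact h0
    · exact h1
    · exact h2
    · exact h3
    · exact h4

theorem petAux {A B S : Fin 5 → Finset ℕ} (hA : ∀ i, V3 (S i) (A i) (A (i - 1)))
    (hB : ∀ i, V3 (S i) (B i) (B (i - 2))) : False := by
  have key := matchAux _ _ _ (hA 0).e1 _ _ (hA 1).e1 _ _ (hA 2).e1 _ _ (hA 3).e1 _ (hA 4).e1
    _ _ (hB 0).e1 _ (hB 3).e1 _ (hB 1).e1 _ (hB 4).e1 (hB 2).e1
  simp only [decide_eq_true_eq] at key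
  have r : ∀ r i : Fin 5, i - 1 + r = i + r - 1 := by decide
  have r2 : ∀ r i : Fin 5, i - 2 + r = i + r - 2 := by decide
  rcases key with ⟨h0, h1, h2, h3, h4⟩ | ⟨h0, h1, h2, h3, h4⟩ | ⟨h0, h1, h2, h3, h4⟩ |
    ⟨h0, h1, h2, h3, h4⟩ | ⟨h0, h1, h2, h3, h4⟩ | ⟨h0, h1, h2, h3, h4⟩
  · refine spokes hA hB fun i => ?_
    fin_cases i
    · exact h0
    · exact h1
    · exact h2
    · exact h3
    · exact h4
  · exact spoke1 hA hB h0 h1 h2 h3 h4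
  · exact spoke1 (A := fun i => A (i + 1)) (B := fun i => B (i + 1)) (S := fun i => S (i + 1))
      (fun i => by simp only [r 1 i]; exact hA _) (fun i => by simp only [r2 1 i]; exact hB _)
      h0 h1 h2 h3 h4
  · exact spoke1 (A := fun i => A (i + 2)) (B := fun i => B (i + 2)) (S := fun i => S (i + 2))
      (fun i => by simp only [r 2 i]; exact hA _) (fun i => by simp only [r2 2 i]; exact hB _)
      h0 h1 h2 h3 h4
  · exact spoke1 (A := fun i => A (i + 3)) (B := fun i => B (i + 3)) (S := fun i => S (i + 3))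
      (fun i => by simp only [r 3 i]; exact hA _) (fun i => by simp only [r2 3 i]; exact hB _)
      h0 h1 h2 h3 h4
  · exact spoke1 (A := fun i => A (i + 4)) (B := fun i => B (i + 4)) (S := fun i => S (i + 4))
      (fun i => by simp only [r 4 i]; exact hA _) (fun i => by simp only [r2 4 i]; exact hB _)
      h0 h1 h2 h3 h4

theorem pnodf : NoDF pnb := by
  rintro ⟨φ, hc, hv⟩
  refine petAux (A := ![φ 0 1, φ 1 1, φ 2 1, φ 3 1, φ 4 1])
    (B := ![φ 5 1, φ 6 1, φ 7 1, φ 8 1, φ 9 1])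
    (S := ![φ 0 0, φ 1 0, φ 2 0, φ 3 0, φ 4 0]) ?_ ?_
  · intro i
    fin_cases i
    · change V3 (φ 0 0) (φ 0 1) (φ 4 1)
      rw [← hc 4 1 2 rfl]
      exact hv 0
    · change V3 (φ 1 0) (φ 1 1) (φ 0 1)
      rw [← hc 0 1 2 rfl]
      exact hv 1
    · change V3 (φ 2 0) (φ 2 1) (φ 1 1)
      rw [← hc 1 1 2 rfl]
      exact hv 2
    · change V3 (φ 3 0) (φ 3 1) (φ 2 1)
      rw [← hc 2 1 2 rfl]
      exact hv 3
    · change V3 (φ 4 0) (φ 4 1) (φ 3 1)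
      rw [← hc 3 1 2 rfl]
      exact hv 4
  · intro i
    fin_cases i
    · change V3 (φ 0 0) (φ 5 1) (φ 8 1)
      rw [← hc 0 0 0 rfl, ← hc 8 1 2 rfl]
      exact hv 5
    · change V3 (φ 1 0) (φ 6 1) (φ 9 1)
      rw [← hc 1 0 0 rfl, ← hc 9 1 2 rfl]
      exact hv 6
    · change V3 (φ 2 0) (φ 7 1) (φ 5 1)
      rw [← hc 2 0 0 rfl, ← hc 5 1 2 rfl]
      exact hv 7
    · change V3 (φ 3 0) (φ 8 1) (φ 6 1)
      rw [← hc 3 0 0 rfl, ← hc 6 1 2 rfl]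
      exact hv 8
    · change V3 (φ 4 0) (φ 9 1) (φ 7 1)
      rw [← hc 4 0 0 rfl, ← hc 7 1 2 rfl]
      exact hv 9

theorem pgood : Good pnb where
  toCub := pcub
  tri := ptri
  quad := pquad
  cg := pcutGood
  nodf := pnodf

end Pool.Agent.U299.CC
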