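import Pool.Agent.U299.CC.WFlow
import Pool.Agent.U299.CC.Pet

/-!
# Members of the family `F` with large excess
-/

set_option autoImplicit false
set_option linter.unusedSectionVars false

namespace Pool.Agent.U299.CC

variable {V : Type} {nb : V → Fin 3 → V} {x : V}

/-- The choice of three equal snarks. -/
def chc [Fintype V] (hG : Good nb) (hP : Pole nb x) : Choice where
  V := fun _ => V
  fin := fun _ => inferInstance
  G := fun _ => gr nb
  snark := fun _ => hG.isSnark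
  index := fun _ => hG.index
  x := fun _ => x
  y := fun _ => nb x 0
  xn := fun _ b => cond b (nb x 2) (nb x 1)
  yn := fun _ b => cond b (nb (nb x 0) 2) (nb (nb x 0) 1)
  hx := fun _ => hG.neighborSet x
  hy := fun _ => by
    have := hG.neighborSet (nb x 0)
    rw [hP.hxy] at this
    exact this

/-- The identification of the vertices. -/
def vte [Fintype V] (hG : Good nb) (hP : Pole nb x) : W nb x ≃ (chc hG hP).Vt :=
  Equiv.sumCongr (Equiv.sigmaEquivProd (Fin 3) (Sub nb x)).symm (Equiv.refl Out)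

theorem aj_edge [Fintype V] (hG : Good nb) (hP : Pole nb x) (p : W nb x) (k : Fin 3) :
    (chc hG hP).Edge (vte hG hP p) (vte hG hP (wnb nb x p k)) ∨
    (chc hG hP).Edge (vte hG hP (wnb nb x p k)) (vte hG hP p) := by
  have f2 : ∀ i : Fin 3, i - 1 + 1 = i := by decide
  have f3 : ∀ i : Fin 3, i + 1 - 1 = i := by decide
  rcases p with ⟨i, v⟩ | j | j | j | _
  · rcases hP.in_cases i v k with ⟨_, a2, a3⟩ | ⟨_, a2, a3⟩ | ⟨_, a2, a3⟩ | ⟨_, a2, a3⟩ |
      ⟨a1, a3⟩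
    · obtain ⟨i', rfl⟩ : ∃ i', i = i' + 1 := ⟨i - 1, (f2 i).symm⟩
      rw [a3, f3]
      exact Or.inr (Choice.Edge.ax (ch := chc hG hP) i' v a2.symm)
    · obtain ⟨i', rfl⟩ : ∃ i', i = i' + 1 := ⟨i - 1, (f2 i).symm⟩
      rw [a3, f3]
      exact Or.inr (Choice.Edge.bx (ch := chc hG hP) i' v a2.symm)
    · obtain ⟨i', rfl⟩ : ∃ i', i = i' - 1 := ⟨i + 1, (f3 i).symm⟩
      rw [a3, f2]
      exact Or.inr (Choice.Edge.ay (ch := chc hG hP) i' v a2.symm)
    · obtain ⟨i', rfl⟩ : ∃ i', i = i' - 1 := ⟨i + 1, (f3 i).symm⟩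
      rw [a3, f2]
      exact Or.inr (Choice.Edge.bY (ch := chc hG hP) i' v a2.symm)
    · rw [a3]
      exact Or.inl (Choice.Edge.old (ch := chc hG hP) i v ⟨nb v.1 k, a1⟩
        (hG.gr_adj.2 ⟨k, rfl⟩))
  · fin_cases k
    · exact Or.inr (Choice.Edge.ca (ch := chc hG hP) j)
    · left
      change (chc hG hP).Edge _ (vte hG hP (wnb nb x (Sum.inr (Out.a j)) 1))
      rw [hP.w_a1]
      exact Choice.Edge.ax (ch := chc hG hP) j ⟨nb x 1, hP.hx 1 (by decide)⟩ rfl
    · left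
      change (chc hG hP).Edge _ (vte hG hP (wnb nb x (Sum.inr (Out.a j)) 2))
      rw [hP.w_a2]
      exact Choice.Edge.ay (ch := chc hG hP) j ⟨nb (nb x 0) 1, hP.hy 1 (by decide)⟩ rfl
  · fin_cases k
    · exact Or.inr (Choice.Edge.cb (ch := chc hG hP) j)
    · left
      change (chc hG hP).Edge _ (vte hG hP (wnb nb x (Sum.inr (Out.b j)) 1))
      rw [hP.w_b1]
      exact Choice.Edge.bx (ch := chc hG hP) j ⟨nb x 2, hP.hx 2 (by decide)⟩ rfl
    · left
      change (chc hG hP).Edge _ (vte hG hP (wnb nb x (Sum.inr (Out.b j)) 2))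
      rw [hP.w_b2]
      exact Choice.Edge.bY (ch := chc hG hP) j ⟨nb (nb x 0) 2, hP.hy 2 (by decide)⟩ rfl
  · fin_cases k
    · exact Or.inl (Choice.Edge.ca (ch := chc hG hP) j)
    · exact Or.inl (Choice.Edge.cb (ch := chc hG hP) j)
    · exact Or.inl (Choice.Edge.cu (ch := chc hG hP) j)
  · exact Or.inr (Choice.Edge.cu (ch := chc hG hP) k)

theorem edge_aj [Fintype V] (hG : Good nb) (hP : Pole nb x) {p q : (chc hG hP).Vt}
    (h : (chc hG hP).Edge p q) :
    Aj (wnb nb x) ((vte hG hP).symm p) ((vte hG hP).symm q) := by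
  cases h with
  | old i v w h =>
    obtain ⟨k, hk⟩ := hG.gr_adj.1 h
    refine ⟨k, ?_⟩
    have hw : nb v.1 k ≠ x ∧ nb v.1 k ≠ nb x 0 := by
      rw [hk]
      exact w.2
    refine (hP.w_in (i := i) (v := v) hw).trans ?_
    change Sum.inl (i, (⟨nb v.1 k, hw⟩ : Sub nb x)) = Sum.inl (i, w)
    rw [show (⟨nb v.1 k, hw⟩ : Sub nb x) = w from Subtype.ext hk]
    rfl
  | ax i v h =>
    refine ⟨1, (hP.w_a1 i).trans ?_⟩
    change Sum.inl (i + 1, _) = Sum.inl (i + 1, v)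
    rw [show v = (⟨nb x 1, hP.hx 1 (by decide)⟩ : Sub nb x) from Subtype.ext h]
  | ay i v h =>
    refine ⟨2, (hP.w_a2 i).trans ?_⟩
    change Sum.inl (i - 1, _) = Sum.inl (i - 1, v)
    rw [show v = (⟨nb (nb x 0) 1, hP.hy 1 (by decide)⟩ : Sub nb x) from Subtype.ext h]
  | bx i v h =>
    refine ⟨1, (hP.w_b1 i).trans ?_⟩
    change Sum.inl (i + 1, _) = Sum.inl (i + 1, v)
    rw [show v = (⟨nb x 2, hP.hx 2 (by decide)⟩ : Sub nb x) from Subtype.ext h]
  | bY i v h =>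
    refine ⟨2, (hP.w_b2 i).trans ?_⟩
    change Sum.inl (i - 1, _) = Sum.inl (i - 1, v)
    rw [show v = (⟨nb (nb x 0) 2, hP.hy 2 (by decide)⟩ : Sub nb x) from Subtype.ext h]
  | ca i => exact ⟨0, rfl⟩
  | cb i => exact ⟨1, rfl⟩
  | cu i => exact ⟨2, rfl⟩

theorem inF [Fintype V] (hG : Good nb) (hP : Pole nb x) : InF (gr (wnb nb x)) := by
  refine ⟨chc hG hP, ⟨⟨vte hG hP, ?_⟩⟩⟩
  intro p q
  rw [hP.wcub.gr_adj]
  unfold Choice.graph
  rw [SimpleGraph.fromRel_adj]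
  constructor
  · rintro ⟨_, h | h⟩
    · have := edge_aj hG hP h
      rwa [Equiv.symm_apply_apply, Equiv.symm_apply_apply] at this
    · have := edge_aj hG hP h
      rw [Equiv.symm_apply_apply, Equiv.symm_apply_apply] at this
      exact hP.wcub.aj_symm this
  · rintro ⟨k, rfl⟩
    refine ⟨fun h => ?_, aj_edge hG hP p k⟩
    exact hP.wcub.ne p k ((vte hG hP).injective h).symm

/-- Graphs in which every flow has many vertices on more than two cycles. -/
theorem tower (k : ℕ) : ∃ (V : Type) (_ : Fintype V) (nb : V → Fin 3 → V) (x : V),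
    Good nb ∧ Pole nb x ∧ DefP nb x (3 ^ k) := by
  induction k with
  | zero =>
    have h1 : Good (wnb pnb 0) := ppole.wgood pgood
    have h2 : Pole (wnb pnb 0) (Sum.inr (Out.c 0)) := ppole.wpole
    have h3 : EV (wnb pnb 0) (Sum.inr (Out.c 0)) := ppole.wev pgood.nodf
    exact ⟨_, inferInstance, wnb (wnb pnb 0) (Sum.inr (Out.c 0)), Sum.inr (Out.c 0),
      h2.wgood h1, h2.wpole, h2.wdef1 h3⟩
  | succ k ih =>
    obtain ⟨V, _, nb, x, hG, hP, hD⟩ := ih
    refine ⟨_, inferInstance, wnb nb x, Sum.inr (Out.c 0), hP.wgood hG, hP.wpole, ?_⟩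
    have := hP.wdef3 hD
    rwa [pow_succ, mul_comm]

theorem defects_ge [Fintype V] {n : ℕ} (hD : DefP nb x n) {φ : V → Fin 3 → Finset ℕ}
    (hc : Con nb φ) (hk : ∀ v, Kir (φ v 0) (φ v 1) (φ v 2)) : n ≤ defects φ := by
  classical
  obtain ⟨D, h1, h2⟩ := hD φ (hc.poleFlow hk x)
  rw [← h1]
  unfold defects
  refine Finset.card_le_card fun v hv => ?_
  simp only [Finset.mem_filter, Finset.mem_univ, true_and]
  exact (h2 v hv).2.2

theorem excess (c : ℕ) : ∃ (V : Type) (_ : Finite V) (G : SimpleGraph V),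
    InF G ∧ 4 * (G.edgeSet.ncard : ℕ∞) + 3 * (c : ℕ∞) ≤ 3 * scc G := by
  obtain ⟨V, _, nb, x, hG, hP, hD⟩ := tower c
  have hW := hP.wdef3 hD
  refine ⟨W nb x, inferInstance, gr (wnb nb x), inF hG hP, ?_⟩
  refine hP.wcub.scc_ge fun φ hc hk => ?_
  have h1 := defects_ge hW hc hk
  have h2 : c < 3 ^ c := Nat.lt_pow_self (by norm_num)
  omega

end Pool.Agent.U299.CC
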