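import Pool.Agent.U299.CC.WCut
import Pool.Agent.U299.CC.Cov
import Pool.Agent.U299.CC.Ana

/-!
# Flows on poles
-/

set_option autoImplicit false
set_option linter.unusedSectionVars false

namespace Pool.Agent.U299.CC

variable {V : Type} {nb : V → Fin 3 → V} {x : V}

/-- A flow on `G - xy` for which Kirchhoff's law may fail at `x` and `y = nb x 0`. -/
structure PoleFlow (nb : V → Fin 3 → V) (x : V) (ψ : V → Fin 3 → Finset ℕ) : Prop where
  con : ∀ v k k', nb (nb v k) k' = v → ¬ (k = 0 ∧ (v = x ∨ v = nb x 0)) →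
    ψ (nb v k) k' = ψ v k
  kir : ∀ v, v ≠ x → v ≠ nb x 0 → Kir (ψ v 0) (ψ v 1) (ψ v 2)

/-- Every vertex except `x` and `y` lies on exactly two cycles. -/
def Clean (nb : V → Fin 3 → V) (x : V) (ψ : V → Fin 3 → Finset ℕ) : Prop :=
  ∀ v, v ≠ x → v ≠ nb x 0 → V3 (ψ v 0) (ψ v 1) (ψ v 2)

theorem card_sd (A B : Finset ℕ) :
    (symmDiff A B).card + 2 * (A ∩ B).card = A.card + B.card := by
  have e2 : (symmDiff A B).card = (A \ B).card + (B \ A).card := by
    rw [symmDiff_def, Finset.sup_eq_union, Finset.card_union_of_disjoint]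
    exact disjoint_sdiff_sdiff
  have e3 := Finset.card_sdiff_add_card_inter A B
  have e4 := Finset.card_sdiff_add_card_inter B A
  rw [Finset.inter_comm B A] at e4
  omega

theorem card_tri (A B : Finset ℕ) : A.card ≤ B.card + (symmDiff A B).card := by
  have h := card_sd B (symmDiff A B)
  have e : symmDiff B (symmDiff A B) = A := by
    rw [symmDiff_comm A B, symmDiff_symmDiff_cancel_left]
  rw [e] at h
  omega

theorem kir_sum {A B C : Finset ℕ} (h : symmDiff A B = C) (j : ℕ) :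
    (if j ∈ A then 1 else 0) + (if j ∈ B then 1 else 0) + (if j ∈ C then 1 else 0) =
      (0 : ZMod 2) := by
  rw [← h]
  by_cases h1 : j ∈ A <;> by_cases h2 : j ∈ B <;> simp [Finset.mem_symmDiff, h1, h2] <;> decide

theorem fin4 (p q r s : Prop) [Decidable p] [Decidable q] [Decidable r] [Decidable s]
    (h : ((if p then 1 else 0) + (if q then 1 else 0)) +
      ((if r then 1 else 0) + (if s then 1 else 0)) = (0 : ZMod 2)) :
    (p ∧ ¬ q ∨ q ∧ ¬ p) ↔ (r ∧ ¬ s ∨ s ∧ ¬ r) := by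
  have e : ∀ a b c d : Bool, ((if a then 1 else 0) + (if b then 1 else 0)) +
      ((if c then 1 else 0) + (if d then 1 else 0)) = (0 : ZMod 2) → xor a b = xor c d := by
    decide
  have := e (decide p) (decide q) (decide r) (decide s) (by simpa using h)
  by_cases h1 : p <;> by_cases h2 : q <;> by_cases h3 : r <;> by_cases h4 : s <;>
    simp_all

namespace Pole

variable (hP : Pole nb x)
include hP

/-- Parity lemma. -/
theorem par [Fintype V] {ψ : V → Fin 3 → Finset ℕ} (hF : PoleFlow nb x ψ) :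
    symmDiff (ψ x 1) (ψ x 2) = symmDiff (ψ (nb x 0) 1) (ψ (nb x 0) 2) := by
  classical
  ext j
  choose r hr using hP.sym
  let b : V × Fin 3 → ZMod 2 := fun d =>
    if d.2 = 0 ∧ (d.1 = x ∨ d.1 = nb x 0) then 0 else if j ∈ ψ d.1 d.2 then 1 else 0
  let rv : V × Fin 3 → V × Fin 3 := fun d => (nb d.1 d.2, r d.1 d.2)
  have hrv : ∀ d, rv (rv d) = d := by
    rintro ⟨v, k⟩
    simp only [rv]
    rw [hr v k]
    refine Prod.ext rfl ?_
    apply hP.inj v
    have := hr (nb v k) (r v k)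
    rw [hr v k] at this
    exact this
  have hsp : ∀ d : V × Fin 3, (d.2 = 0 ∧ (d.1 = x ∨ d.1 = nb x 0)) →
      ((rv d).2 = 0 ∧ ((rv d).1 = x ∨ (rv d).1 = nb x 0)) := by
    rintro ⟨v, k⟩ ⟨h1, h2⟩
    simp only at h1 h2
    subst h1
    rcases h2 with rfl | rfl
    · refine ⟨?_, Or.inr rfl⟩
      apply hP.inj (nb v 0)
      exact (hr v 0).trans hP.hxy.symm
    · refine ⟨?_, Or.inl hP.hxy⟩
      apply hP.inj (nb (nb x 0) 0)
      change nb (nb (nb x 0) 0) (r (nb x 0) 0) = _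
      rw [hr (nb x 0) 0, hP.hxy]
  have hb : ∀ d, b (rv d) = b d := by
    intro d
    by_cases h : d.2 = 0 ∧ (d.1 = x ∨ d.1 = nb x 0)
    · simp only [b]
      rw [if_pos h, if_pos (hsp d h)]
    · have h' : ¬ ((rv d).2 = 0 ∧ ((rv d).1 = x ∨ (rv d).1 = nb x 0)) := by
        intro h'
        apply h
        have := hsp (rv d) h'
        rwa [hrv] at this
      simp only [b]
      rw [if_neg h, if_neg h']
      have := hF.con d.1 d.2 (r d.1 d.2) (hr d.1 d.2) h
      simp only [rv]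
      rw [this]
  have h0 : ∑ d, b d = 0 := by
    refine Finset.sum_involution (fun d _ => rv d) ?_ ?_ ?_ ?_
    · intro d _
      rw [hb]
      exact CharTwo.add_self_eq_zero _
    · intro d _ _ h
      exact hP.ne d.1 d.2 (congrArg Prod.fst h)
    · intro d _
      exact Finset.mem_univ _
    · intro d _
      exact hrv d
  rw [Fintype.sum_prod_type, Fintype.sum_eq_add x (nb x 0) hP.xy.symm] at h0
  · rw [Fin.sum_univ_three, Fin.sum_univ_three] at h0
    simp only [b, true_or, or_true, and_true, if_true, Fin.reduceEq, if_false, zero_add] at h0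
    rw [Finset.mem_symmDiff, Finset.mem_symmDiff]
    exact fin4 _ _ _ _ h0
  · rintro v ⟨hv1, hv2⟩
    rw [Fin.sum_univ_three]
    simp only [b, hv1, hv2, or_self, and_false, if_false]
    exact kir_sum (hF.kir v hv1 hv2).1 j

/-- If `G` has no clean flow, a clean flow of the pole does not extend to `x` and `y`. -/
theorem nx {ψ : V → Fin 3 → Finset ℕ} (hN : NoDF nb)
    (hF : PoleFlow nb x ψ) (hcl : Clean nb x ψ)
    (hX : symmDiff (ψ x 1) (ψ x 2) = symmDiff (ψ (nb x 0) 1) (ψ (nb x 0) 2))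
    (h1 : V3 (ψ x 1) (ψ x 2) (symmDiff (ψ x 1) (ψ x 2)))
    (h2 : V3 (ψ (nb x 0) 1) (ψ (nb x 0) 2) (symmDiff (ψ (nb x 0) 1) (ψ (nb x 0) 2))) : False := by
  classical
  apply hN
  refine ⟨fun v k => if k = 0 ∧ (v = x ∨ v = nb x 0) then symmDiff (ψ x 1) (ψ x 2) else ψ v k,
    ?_, ?_⟩
  · intro v k k' hk
    by_cases h : k = 0 ∧ (v = x ∨ v = nb x 0)
    · have h' : k' = 0 ∧ (nb v k = x ∨ nb v k = nb x 0) := by
        obtain ⟨rfl, h⟩ := h
        rcases h with rfl | rfl
        · exact ⟨hP.inj (nb v 0) (hk.trans hP.hxy.symm), Or.inr rfl⟩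
        · refine ⟨?_, Or.inl hP.hxy⟩
          apply hP.inj (nb (nb x 0) 0)
          rw [hk, hP.hxy]
      simp only
      rw [if_pos h, if_pos h']
    · have h' : ¬ (k' = 0 ∧ (nb v k = x ∨ nb v k = nb x 0)) := by
        rintro ⟨rfl, h'⟩
        apply h
        rcases h' with h' | h'
        · rw [h'] at hk
          refine ⟨?_, Or.inr hk.symm⟩
          apply hP.inj v
          rw [h', ← hk, hP.hxy]
        · rw [h', hP.hxy] at hk
          subst hk
          exact ⟨hP.inj _ h', Or.inl rfl⟩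
      simp only
      rw [if_neg h, if_neg h']
      exact hF.con v k k' hk h
  · intro v
    by_cases hv1 : v = x
    · subst hv1
      simp only [true_or, and_true, if_true, Fin.reduceEq, if_false]
      exact h1.rot.rot
    · by_cases hv2 : v = nb x 0
      · subst hv2
        simp only [or_true, and_true, if_true, Fin.reduceEq, if_false]
        rw [hX]
        exact h2.rot.rot
      · simp only [hv1, hv2, or_self, and_false, if_false]
        exact hcl v hv1 hv2

/-- Sizes of the label sets of the four outer edges of a pole. -/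
theorem szs {ψ : V → Fin 3 → Finset ℕ} (hF : PoleFlow nb x ψ) (hcl : Clean nb x ψ) :
    (∀ k : Fin 3, k ≠ 0 → 1 ≤ (ψ x k).card ∧ (ψ x k).card ≤ 2) ∧
    (∀ k : Fin 3, k ≠ 0 → 1 ≤ (ψ (nb x 0) k).card ∧ (ψ (nb x 0) k).card ≤ 2) := by
  have key : ∀ v (k : Fin 3), V3 (ψ v 0) (ψ v 1) (ψ v 2) →
      1 ≤ (ψ v k).card ∧ (ψ v k).card ≤ 2 := by
    rintro v k ⟨⟨_, h1, h2, h3⟩, h4⟩
    have := h1.card_pos
    have := h2.card_pos
    have := h3.card_pos
    fin_cases k
    · change 1 ≤ (ψ v 0).card ∧ (ψ v 0).card ≤ 2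
      omega
    · change 1 ≤ (ψ v 1).card ∧ (ψ v 1).card ≤ 2
      omega
    · change 1 ≤ (ψ v 2).card ∧ (ψ v 2).card ≤ 2
      omega
  constructor
  · intro k hk
    obtain ⟨k', hk'⟩ := hP.sym x k
    have e := hF.con x k k' hk' (fun h => hk h.1)
    rw [← e]
    exact key _ _ (hcl _ (hP.hx k hk).1 (hP.hx k hk).2)
  · intro k hk
    obtain ⟨k', hk'⟩ := hP.sym (nb x 0) k
    have e := hF.con (nb x 0) k k' hk' (fun h => hk h.1)
    rw [← e]
    exact key _ _ (hcl _ (hP.hy k hk).1 (hP.hy k hk).2)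

end Pole

namespace Pole

variable (hP : Pole nb x)
include hP

theorem pf [Fintype V] {ψ : V → Fin 3 → Finset ℕ} (hF : PoleFlow nb x ψ) (hcl : Clean nb x ψ) :
    PF (ψ x 1).card (ψ x 2).card (ψ (nb x 0) 1).card (ψ (nb x 0) 2).card
      (symmDiff (ψ x 1) (ψ x 2)).card := by
  obtain ⟨s1, s2⟩ := hP.szs hF hcl
  have hX := hP.par hF
  have c1 := card_sd (ψ x 1) (ψ x 2)
  have c2 := card_sd (ψ (nb x 0) 1) (ψ (nb x 0) 2)
  rw [← hX] at c2
  exact ⟨(s1 1 (by decide)).1, (s1 1 (by decide)).2, (s1 2 (by decide)).1, (s1 2 (by decide)).2,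
    (s2 1 (by decide)).1, (s2 1 (by decide)).2, (s2 2 (by decide)).1, (s2 2 (by decide)).2,
    by omega, by omega, by omega, by omega⟩

theorem pn [Fintype V] {ψ : V → Fin 3 → Finset ℕ} (hN : NoDF nb) (hF : PoleFlow nb x ψ)
    (hcl : Clean nb x ψ) :
    PN (ψ x 1).card (ψ x 2).card (ψ (nb x 0) 1).card (ψ (nb x 0) 2).card
      (symmDiff (ψ x 1) (ψ x 2)).card := by
  have h := hP.pf hF hcl
  have hX := hP.par hF
  have key : 0 < (symmDiff (ψ x 1) (ψ x 2)).card →
      (ψ x 1).card + (ψ x 2).card + (symmDiff (ψ x 1) (ψ x 2)).card = 4 →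
      (ψ (nb x 0) 1).card + (ψ (nb x 0) 2).card + (symmDiff (ψ x 1) (ψ x 2)).card = 4 →
      False := by
    intro h0 h1 h2
    refine hP.nx hN hF hcl hX ⟨⟨rfl, Finset.card_pos.1 h.a1, Finset.card_pos.1 h.a3,
      Finset.card_pos.1 h0⟩, h1⟩ ⟨⟨rfl, Finset.card_pos.1 h.b1, Finset.card_pos.1 h.b3, ?_⟩, ?_⟩
    · rw [← hX]
      exact Finset.card_pos.1 h0
    · rw [← hX]
      exact h2
  obtain ⟨a1, a2, a3, a4, b1, b2, b3, b4, p1, p2, l1, l2⟩ := h
  refine ⟨⟨a1, a2, a3, a4, b1, b2, b3, b4, p1, p2, l1, l2⟩, ?_, ?_, ?_⟩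
  · intro hodd
    by_contra hne
    exact key (by omega) (by omega) (by omega)
  · intro h1 h2 h3
    by_contra hne
    exact key (by omega) (by omega) (by omega)
  · intro h1 h2 h3
    by_contra hne
    exact key (by omega) (by omega) (by omega)

end Pole

end Pool.Agent.U299.CC
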