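import Pool.Agent.U299.CC.Def

/-!
# Cubic graphs given by neighbour functions, cuts and flows
-/

set_option autoImplicit false

namespace Pool.Agent.U299.CC

open Pool.Agent.N366.RS (IsSnark)

/-- Indicator of `a ≠ b`. -/
def dd (a b : Bool) : ℕ := (xor a b).toNat

/-- Indicator of `a = true`, `b = false`. -/
def gg (a b : Bool) : ℕ := (a && !b).toNat

theorem gg_add (a b : Bool) : gg a b + gg b a = dd a b := by
  cases a <;> cases b <;> rfl

/-- Kirchhoff's law for nonempty sets of labels. -/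
def Kir (A B C : Finset ℕ) : Prop := symmDiff A B = C ∧ A.Nonempty ∧ B.Nonempty ∧ C.Nonempty

/-- The vertex lies on exactly two cycles. -/
def V3 (A B C : Finset ℕ) : Prop := Kir A B C ∧ A.card + B.card + C.card = 4

/-- A cubic graph, `nb v k` are the three neighbours of `v`. -/
structure Cub {V : Type} (nb : V → Fin 3 → V) : Prop where
  inj : ∀ v, Function.Injective (nb v)
  ne : ∀ v k, nb v k ≠ v
  sym : ∀ v k, ∃ k', nb (nb v k) k' = v

/-- Adjacency. -/
def Aj {V : Type} (nb : V → Fin 3 → V) (v w : V) : Prop := ∃ k, nb v k = w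

/-- The two directions of an edge carry the same labels. -/
def Con {V : Type} (nb : V → Fin 3 → V) (φ : V → Fin 3 → Finset ℕ) : Prop :=
  ∀ v k k', nb (nb v k) k' = v → φ (nb v k) k' = φ v k

/-- There is no flow for which every vertex lies on exactly two cycles. -/
def NoDF {V : Type} (nb : V → Fin 3 → V) : Prop :=
  ¬ ∃ φ, Con nb φ ∧ ∀ v, V3 (φ v 0) (φ v 1) (φ v 2)

/-- Number of edges between `S` and its complement. -/
def cut {V : Type} [Fintype V] (nb : V → Fin 3 → V) (S : V → Bool) : ℕ :=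
  ∑ v, ∑ k, gg (S v) (S (nb v k))

/-- Every set of vertices has at least four boundary edges, unless it or its complement is empty
or (then at least three) a single vertex. -/
def CutGood {V : Type} [Fintype V] (nb : V → Fin 3 → V) : Prop := ∀ S : V → Bool,
  4 ≤ cut nb S ∨ (∃ q, ∀ x, S x = q) ∨ (3 ≤ cut nb S ∧ ∃ x q, S x = !q ∧ ∀ y, y ≠ x → S y = q)

/-- No triangles. -/
def TriFree {V : Type} (nb : V → Fin 3 → V) : Prop :=
  ∀ x y z, Aj nb x y → Aj nb y z → Aj nb z x → False

/-- No 4-cycles. -/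
def QuadFree {V : Type} (nb : V → Fin 3 → V) : Prop :=
  ∀ x y z w, Aj nb x y → Aj nb y z → Aj nb z w → Aj nb w x → x ≠ z → y ≠ w → False

/-- All properties of a snark without a cycle cover through every vertex exactly twice. -/
structure Good {V : Type} [Fintype V] (nb : V → Fin 3 → V) : Prop extends Cub nb where
  tri : TriFree nb
  quad : QuadFree nb
  cg : CutGood nb
  nodf : NoDF nb

theorem Cub.aj_symm {V : Type} {nb : V → Fin 3 → V} (h : Cub nb) {v w : V} (hvw : Aj nb v w) :
    Aj nb w v := by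
  obtain ⟨k, rfl⟩ := hvw
  exact h.sym v k

/-- The graph. -/
def gr {V : Type} (nb : V → Fin 3 → V) : SimpleGraph V := SimpleGraph.fromRel (Aj nb)

theorem Cub.gr_adj {V : Type} {nb : V → Fin 3 → V} (h : Cub nb) {v w : V} :
    (gr nb).Adj v w ↔ Aj nb v w := by
  unfold gr
  rw [SimpleGraph.fromRel_adj]
  constructor
  · rintro ⟨_, h1 | h1⟩
    · exact h1
    · exact h.aj_symm h1
  · rintro ⟨k, rfl⟩
    exact ⟨(h.ne v k).symm, Or.inl ⟨k, rfl⟩⟩

theorem Cub.neighborSet {V : Type} {nb : V → Fin 3 → V} (h : Cub nb) (v : V) :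
    (gr nb).neighborSet v = {nb v 0, nb v 1, nb v 2} := by
  ext w
  rw [SimpleGraph.mem_neighborSet, h.gr_adj]
  simp only [Set.mem_insert_iff, Set.mem_singleton_iff]
  constructor
  · rintro ⟨k, rfl⟩
    fin_cases k <;> simp
  · rintro (rfl | rfl | rfl)
    · exact ⟨0, rfl⟩
    · exact ⟨1, rfl⟩
    · exact ⟨2, rfl⟩

theorem V3.rot {A B C : Finset ℕ} (h : V3 A B C) : V3 B C A := by
  obtain ⟨⟨h1, h2, h3, h4⟩, h5⟩ := h
  refine ⟨⟨?_, h3, h4, h2⟩, by omega⟩
  rw [← h1, symmDiff_comm A B, symmDiff_symmDiff_cancel_left]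

theorem V3.swap {A B C : Finset ℕ} (h : V3 A B C) : V3 B A C := by
  obtain ⟨⟨h1, h2, h3, h4⟩, h5⟩ := h
  exact ⟨⟨by rw [symmDiff_comm, h1], h3, h2, h4⟩, by omega⟩

/-! ### Snarks -/

theorem Good.cubic {V : Type} [Fintype V] {nb : V → Fin 3 → V} (h : Good nb) (v : V) :
    ((gr nb).neighborSet v).ncard = 3 := by
  rw [h.neighborSet, Set.ncard_eq_three]
  refine ⟨nb v 0, nb v 1, nb v 2, ?_, ?_, ?_, rfl⟩
  · exact fun e => absurd (h.inj v e) (by decide)
  · exact fun e => absurd (h.inj v e) (by decide)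
  · exact fun e => absurd (h.inj v e) (by decide)

theorem Good.girth {V : Type} [Fintype V] {nb : V → Fin 3 → V} (h : Good nb) (v : V)
    (c : (gr nb).Walk v v) (hc : c.IsCycle) : 5 ≤ c.length := by
  by_contra hlt
  have hle := hc.three_le_length
  have hs : ∀ {x y}, (gr nb).Adj x y → Aj nb x y := fun e => h.gr_adj.1 e
  have hnd := hc.support_nodup
  rcases c with _ | ⟨a1, c⟩
  · simp at hle
  rcases c with _ | ⟨a2, c⟩
  · simp at hle
  rcases c with _ | ⟨a3, c⟩
  · simp at hle
  rcases c with _ | ⟨a4, c⟩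
  · exact h.tri _ _ _ (hs a1) (hs a2) (hs a3)
  rcases c with _ | ⟨a5, c⟩
  · refine h.quad _ _ _ _ (hs a1) (hs a2) (hs a3) (hs a4) ?_ ?_
    · simp [SimpleGraph.Walk.support_cons] at hnd
      tauto
    · simp [SimpleGraph.Walk.support_cons] at hnd
      tauto
  · simp [SimpleGraph.Walk.length_cons] at hlt

theorem tn_eq (b : Bool) {inst : Decidable (b = true)} :
    b.toNat = @ite ℕ (b = true) inst 1 0 := by
  cases b <;> simp

theorem Cub.cut_le {V : Type} [Fintype V] {nb : V → Fin 3 → V} (hN : Cub nb)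
    (S : V → Bool) (A : Set (Sym2 V))
    (h : ∀ x y, Aj nb x y → S x = true → S y = false → s(x, y) ∈ A) : cut nb S ≤ A.ncard := by
  classical
  have hcut : cut nb S = ((Finset.univ : Finset (V × Fin 3)).filter
      (fun e => (S e.1 && !S (nb e.1 e.2)) = true)).card := by
    rw [Finset.card_filter, Fintype.sum_prod_type]
    unfold cut
    exact Finset.sum_congr rfl fun v _ => Finset.sum_congr rfl fun k _ => tn_eq _
  rw [hcut, ← Finset.card_image_of_injOn (f := fun e : V × Fin 3 => s(e.1, nb e.1 e.2)),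
    ← Set.ncard_coe_finset]
  · apply Set.ncard_le_ncard _ (Set.toFinite _)
    intro z hz
    simp only [Finset.coe_image, Set.mem_image, Finset.coe_filter, Finset.mem_univ, true_and,
      Set.mem_ofPred_eq] at hz
    obtain ⟨e, he, rfl⟩ := hz
    simp only [Bool.and_eq_true, Bool.not_eq_true'] at he
    exact h _ _ ⟨e.2, rfl⟩ he.1 he.2
  · rintro ⟨v, k⟩ he ⟨v', k'⟩ he' hee
    simp only [Finset.coe_filter, Finset.mem_univ, true_and, Set.mem_ofPred_eq, Bool.and_eq_true,
      Bool.not_eq_true'] at he he'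
    simp only [Sym2.eq_iff] at hee
    rcases hee with ⟨h1, h2⟩ | ⟨h1, h2⟩
    · subst h1
      rw [hN.inj v h2]
    · rw [h1] at he
      rw [he'.2] at he
      exact absurd he.1 (by simp)

theorem Good.cyclic {V : Type} [Fintype V] {nb : V → Fin 3 → V} (hN : Good nb)
    (A : Set (Sym2 V)) (_ : A ⊆ (gr nb).edgeSet) (hA : A.ncard < 4)
    (u v : V) (c : ((gr nb).deleteEdges A).Walk u u) (d : ((gr nb).deleteEdges A).Walk v v)
    (hc : c.IsCycle) (hd : d.IsCycle) : ((gr nb).deleteEdges A).Reachable u v := by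
  classical
  by_contra hr
  let S : V → Bool := fun x => decide (((gr nb).deleteEdges A).Reachable u x)
  have hcut := hN.cut_le S A (by
    intro x y hxy hx hy
    by_contra hn
    simp only [S, decide_eq_true_eq, decide_eq_false_iff_not] at hx hy
    apply hy
    refine hx.trans (SimpleGraph.Adj.reachable ?_)
    rw [SimpleGraph.deleteEdges_adj]
    exact ⟨hN.gr_adj.2 hxy, hn⟩)
  have hu : S u = true := by simp [S]
  have hv : S v = false := by simp [S, hr]
  have nbr : ∀ (w : V) (c : ((gr nb).deleteEdges A).Walk w w), c.IsCycle →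
      ∃ w', w' ≠ w ∧ ((gr nb).deleteEdges A).Reachable w w' := by
    intro w c hc
    cases c with
    | nil => exact absurd rfl hc.ne_nil
    | cons h p => exact ⟨_, h.ne', h.reachable⟩
  obtain ⟨u', hu1, hu2⟩ := nbr u c hc
  obtain ⟨v', hv1, hv2⟩ := nbr v d hd
  have hu' : S u' = true := by simp [S, hu2]
  have hv' : S v' = false := by
    simp only [S, decide_eq_false_iff_not]
    intro h
    exact hr (h.trans hv2.symm)
  rcases hN.cg S with h | ⟨q, h⟩ | ⟨_, x, q, h1, h2⟩
  · omega
  · have e1 := h u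
    have e2 := h v
    rw [hu] at e1
    rw [hv, ← e1] at e2
    exact absurd e2 (by simp)
  · have key : ∀ (r : Bool) {y z : V}, S y = r → S z = r → y ≠ z → q = r := by
      intro r y z hy hz hyz
      by_contra hq
      have e1 : y = x := by
        by_contra hne
        rw [h2 y hne] at hy
        exact hq hy
      have e2 : z = x := by
        by_contra hne
        rw [h2 z hne] at hz
        exact hq hz
      exact hyz (e1.trans e2.symm)
    have a1 := key true hu' hu hu1
    have a2 := key false hv' hv hv1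
    rw [a1] at a2
    exact absurd a2 (by simp)

/-- A 3-edge-colouring gives a flow through every vertex exactly twice. -/
theorem col_v3 : ∀ i j k : Fin 3, i ≠ j → i ≠ k → j ≠ k →
    V3 ((![{0}, {1}, {0, 1}] : Fin 3 → Finset ℕ) i) ((![{0}, {1}, {0, 1}] : Fin 3 → Finset ℕ) j)
      ((![{0}, {1}, {0, 1}] : Fin 3 → Finset ℕ) k) := by
  unfold V3 Kir
  decide

theorem Good.uncol {V : Type} [Fintype V] {nb : V → Fin 3 → V} (hN : Good nb) :
    ¬ ∃ f : Sym2 V → Fin 3, ∀ u v w : V, (gr nb).Adj u v → (gr nb).Adj u w → v ≠ w →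
      f s(u, v) ≠ f s(u, w) := by
  rintro ⟨f, hf⟩
  apply hN.nodf
  refine ⟨fun v k => (![{0}, {1}, {0, 1}] : Fin 3 → Finset ℕ) (f s(v, nb v k)), ?_, ?_⟩
  · intro v k k' h
    simp only
    rw [h, Sym2.eq_swap]
  · intro v
    have hne : ∀ k k' : Fin 3, k ≠ k' → f s(v, nb v k) ≠ f s(v, nb v k') := fun k k' h =>
      hf _ _ _ (hN.gr_adj.2 ⟨k, rfl⟩) (hN.gr_adj.2 ⟨k', rfl⟩) fun e => h (hN.inj v e)
    exact col_v3 _ _ _ (hne 0 1 (by decide)) (hne 0 2 (by decide)) (hne 1 2 (by decide))

theorem Good.isSnark {V : Type} [Fintype V] {nb : V → Fin 3 → V} (hN : Good nb) :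
    IsSnark (gr nb) :=
  ⟨hN.cubic, hN.cyclic, hN.girth, hN.uncol⟩

end Pool.Agent.U299.CC
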