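import Pool.Agent.U299.CC.WGirth

/-!
# Cuts of the constructed graph
-/

set_option autoImplicit false
set_option linter.unusedSectionVars false

namespace Pool.Agent.U299.CC

variable {V : Type} {nb : V → Fin 3 → V} {x : V}

noncomputable instance instSub [Fintype V] : Fintype (Sub nb x) := by
  classical
  exact Subtype.fintype _

theorem dd_self (a : Bool) : dd a a = 0 := by cases a <;> rfl

/-- Handshake at the vertex `z`. -/
theorem Cub.hsum [Fintype V] [DecidableEq V] (hN : Cub nb) (z : V) (h : V → ℕ) :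
    ∑ v, ∑ k, (if nb v k = z then h v else 0) = ∑ k, h (nb z k) := by
  have e : ∀ v, ∑ k, (if nb v k = z then h v else 0) = ∑ k, (if nb z k = v then h v else 0) := by
    intro v
    by_cases hv : ∃ k, nb v k = z
    · obtain ⟨k0, hk0⟩ := hv
      obtain ⟨k1, hk1⟩ := hN.sym v k0
      rw [hk0] at hk1
      have e1 : ∀ k, nb v k = z ↔ k = k0 := fun k =>
        ⟨fun h => hN.inj v (h.trans hk0.symm), fun h => h ▸ hk0⟩
      have e2 : ∀ k, nb z k = v ↔ k = k1 := fun k =>
        ⟨fun h => hN.inj z (h.trans hk1.symm), fun h => h ▸ hk1⟩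
      simp only [e1, e2, Finset.sum_ite_eq', Finset.mem_univ, if_true]
    · have e1 : ∀ k, ¬ nb v k = z := fun k h => hv ⟨k, h⟩
      have e2 : ∀ k, ¬ nb z k = v := by
        intro k h
        apply hv
        obtain ⟨k', hk'⟩ := hN.sym z k
        exact ⟨k', by rw [← h, hk']⟩
      simp only [e1, e2, if_false]
  rw [Finset.sum_congr rfl fun v _ => e v, Finset.sum_comm]
  refine Finset.sum_congr rfl fun k _ => ?_
  rw [Finset.sum_ite_eq]
  simp

theorem split2 [Fintype V] [DecidableEq V] {x y : V} (hxy : y ≠ x) (F : V → ℕ) :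
    ∑ v, F v = ∑ v, (if v = x ∨ v = y then 0 else F v) + (F x + F y) := by
  have : ∀ v, F v = (if v = x ∨ v = y then 0 else F v) +
      ((if v = x then F x else 0) + (if v = y then F y else 0)) := by
    intro v
    by_cases h1 : v = x
    · subst h1
      simp [hxy.symm]
    · by_cases h2 : v = y
      · subst h2
        simp [h1]
      · simp [h1, h2]
  rw [Finset.sum_congr rfl fun v _ => this v, Finset.sum_add_distrib, Finset.sum_add_distrib]
  simp

/-- Number of crossing edges inside of `G - {x, y}`. -/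
noncomputable def inn [Fintype V] (nb : V → Fin 3 → V) (x : V) (T : V → Bool) : ℕ := by
  classical
  exact ∑ v, ∑ k, if v = x ∨ v = nb x 0 ∨ nb v k = x ∨ nb v k = nb x 0 then 0
    else gg (T v) (T (nb v k))

namespace Pole

variable (hP : Pole nb x)
include hP

theorem bsum [Fintype V] [DecidableEq V] (H : V → V → ℕ) :
    ∑ v, (if v = x ∨ v = nb x 0 then 0 else ∑ k, H v (nb v k)) =
    ∑ v, ∑ k, (if v = x ∨ v = nb x 0 ∨ nb v k = x ∨ nb v k = nb x 0 then 0 else H v (nb v k)) +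
    (H (nb x 1) x + H (nb x 2) x) +
    (H (nb (nb x 0) 1) (nb x 0) + H (nb (nb x 0) 2) (nb x 0)) := by
  have e : ∀ v, (if v = x ∨ v = nb x 0 then 0 else ∑ k, H v (nb v k)) =
      ∑ k, (if v = x ∨ v = nb x 0 ∨ nb v k = x ∨ nb v k = nb x 0 then 0 else H v (nb v k)) +
      ∑ k, (if nb v k = x then (if v = x ∨ v = nb x 0 then 0 else H v x) else 0) +
      ∑ k, (if nb v k = nb x 0 then (if v = x ∨ v = nb x 0 then 0 else H v (nb x 0)) else 0) := by
    intro v
    rw [← Finset.sum_add_distrib, ← Finset.sum_add_distrib]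
    by_cases hv : v = x ∨ v = nb x 0
    · rw [if_pos hv]
      symm
      apply Finset.sum_eq_zero
      intro k _
      rcases hv with hv | hv
      · simp [hv]
      · simp [hv]
    · rw [if_neg hv]
      refine Finset.sum_congr rfl fun k _ => ?_
      push Not at hv
      by_cases h1 : nb v k = x
      · have h2 : nb v k ≠ nb x 0 := by rw [h1]; exact hP.xy.symm
        simp [hv.1, hv.2, h1, hP.xy.symm]
      · by_cases h2 : nb v k = nb x 0
        · simp [hv.1, hv.2, h2, hP.xy]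
        · simp [hv.1, hv.2, h1, h2]
  rw [Finset.sum_congr rfl fun v _ => e v, Finset.sum_add_distrib, Finset.sum_add_distrib,
    hP.hsum x (fun v => if v = x ∨ v = nb x 0 then 0 else H v x),
    hP.hsum (nb x 0) (fun v => if v = x ∨ v = nb x 0 then 0 else H v (nb x 0))]
  rw [Fin.sum_univ_three, Fin.sum_univ_three, hP.hxy]
  have a1 := hP.hx 1 (by decide)
  have a2 := hP.hx 2 (by decide)
  have a3 := hP.hy 1 (by decide)
  have a4 := hP.hy 2 (by decide)
  simp only [a1.1, a1.2, a2.1, a2.2, a3.1, a3.2, a4.1, a4.2, or_self, if_false, or_true, true_or,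
    if_true, zero_add]

/-- The cut of the old graph. -/
theorem cut_eq [Fintype V] (T : V → Bool) : cut nb T = inn nb x T +
    (dd (T (nb x 1)) (T x) + dd (T (nb x 2)) (T x)) +
    (dd (T (nb (nb x 0) 1)) (T (nb x 0)) + dd (T (nb (nb x 0) 2)) (T (nb x 0))) +
    dd (T x) (T (nb x 0)) := by
  classical
  unfold cut inn
  rw [split2 hP.xy (fun v => ∑ k, gg (T v) (T (nb v k))),
    hP.bsum (fun v w => gg (T v) (T w)), Fin.sum_univ_three, Fin.sum_univ_three, hP.hxy]
  simp only [← gg_add]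
  ring

theorem inn_congr [Fintype V] {T T' : V → Bool} (h : ∀ v, v ≠ x → v ≠ nb x 0 → T v = T' v) :
    inn nb x T = inn nb x T' := by
  classical
  unfold inn
  refine Finset.sum_congr rfl fun v _ => Finset.sum_congr rfl fun k _ => ?_
  by_cases hc : v = x ∨ v = nb x 0 ∨ nb v k = x ∨ nb v k = nb x 0
  · rw [if_pos hc, if_pos hc]
  · rw [if_neg hc, if_neg hc]
    push Not at hc
    rw [h v hc.1 hc.2.1, h (nb v k) hc.2.2.1 hc.2.2.2]

end Pole

/-- The restriction of `S` to the `i`-th copy, with the value `q` at `x` and `y`. -/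
noncomputable def res (nb : V → Fin 3 → V) (x : V) (S : W nb x → Bool) (i : Fin 3) (q : Bool) :
    V → Bool := by
  classical
  exact fun v => if h : v ≠ x ∧ v ≠ nb x 0 then S (Sum.inl (i, ⟨v, h⟩)) else q

theorem res_sub (S : W nb x → Bool) (i : Fin 3) (q : Bool) (v : Sub nb x) :
    res nb x S i q v.1 = S (Sum.inl (i, v)) := by
  unfold res
  rw [dif_pos v.2]

theorem res_x (S : W nb x → Bool) (i : Fin 3) (q : Bool) : res nb x S i q x = q := by
  unfold res
  rw [dif_neg (by simp)]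

theorem res_y (S : W nb x → Bool) (i : Fin 3) (q : Bool) : res nb x S i q (nb x 0) = q := by
  unfold res
  rw [dif_neg (by simp)]

namespace Pole

variable (hP : Pole nb x)
include hP

/-- The four terminals as vertices of a copy. -/
def tm (s : Fin 4) : Sub nb x :=
  ![⟨nb x 1, hP.hx 1 (by decide)⟩, ⟨nb x 2, hP.hx 2 (by decide)⟩,
    ⟨nb (nb x 0) 1, hP.hy 1 (by decide)⟩, ⟨nb (nb x 0) 2, hP.hy 2 (by decide)⟩] s

/-- The value at a terminal. -/
def tv (S : W nb x → Bool) (i : Fin 3) (s : Fin 4) : Bool := S (Sum.inl (i, hP.tm s))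

theorem copy_sum [Fintype V] (S : W nb x → Bool) (i : Fin 3) :
    ∑ v : Sub nb x, ∑ k, gg (S (Sum.inl (i, v))) (S (wnb nb x (Sum.inl (i, v)) k)) =
    inn nb x (res nb x S i false) +
    (gg (hP.tv S i 0) (S (Sum.inr (Out.a (i - 1)))) +
      gg (hP.tv S i 1) (S (Sum.inr (Out.b (i - 1))))) +
    (gg (hP.tv S i 2) (S (Sum.inr (Out.a (i + 1)))) +
      gg (hP.tv S i 3) (S (Sum.inr (Out.b (i + 1))))) := by
  classical
  let R := res nb x S i false
  let H : V → V → ℕ := fun v w =>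
    if w = x then (if nb x 1 = v then gg (R v) (S (Sum.inr (Out.a (i - 1))))
      else gg (R v) (S (Sum.inr (Out.b (i - 1)))))
    else if w = nb x 0 then (if nb (nb x 0) 1 = v then gg (R v) (S (Sum.inr (Out.a (i + 1))))
      else gg (R v) (S (Sum.inr (Out.b (i + 1)))))
    else gg (R v) (R w)
  have hR : ∀ v : Sub nb x, R v.1 = S (Sum.inl (i, v)) := res_sub S i false
  have e1 : ∀ v : Sub nb x, ∑ k, gg (S (Sum.inl (i, v))) (S (wnb nb x (Sum.inl (i, v)) k)) =
      ∑ k, H v.1 (nb v.1 k) := by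
    intro v
    refine Finset.sum_congr rfl fun k _ => ?_
    simp only [H]
    rcases hP.in_cases i v k with ⟨a1, a2, a3⟩ | ⟨a1, a2, a3⟩ | ⟨a1, a2, a3⟩ | ⟨a1, a2, a3⟩ |
      ⟨a1, a3⟩
    · rw [a3, if_pos a1, if_pos a2, hR]
    · have : ¬ nb x 1 = v.1 := fun h => absurd (hP.inj x (h.trans a2.symm)) (by decide)
      rw [a3, if_pos a1, if_neg this, hR]
    · have : ¬ nb v.1 k = x := by rw [a1]; exact hP.xy
      rw [a3, if_neg this, if_pos a1, if_pos a2, hR]
    · have h1 : ¬ nb v.1 k = x := by rw [a1]; exact hP.xy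
      have h2 : ¬ nb (nb x 0) 1 = v.1 := fun h => absurd (hP.inj _ (h.trans a2.symm)) (by decide)
      rw [a3, if_neg h1, if_pos a1, if_neg h2, hR]
    · rw [a3, if_neg a1.1, if_neg a1.2, hR, ← hR ⟨nb v.1 k, a1⟩]
  rw [Finset.sum_congr rfl fun v _ => e1 v]
  have e2 : ∑ v : Sub nb x, ∑ k, H v.1 (nb v.1 k) =
      ∑ v, (if v = x ∨ v = nb x 0 then 0 else ∑ k, H v (nb v k)) := by
    have h := Finset.sum_subtype (F := instSub) (p := fun v : V => v ≠ x ∧ v ≠ nb x 0)
      (Finset.univ.filter fun v : V => v ≠ x ∧ v ≠ nb x 0) (fun v => by simp)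
      (fun v => ∑ k, H v (nb v k))
    rw [Finset.sum_filter] at h
    refine h.symm.trans ?_
    refine Finset.sum_congr rfl fun v _ => ?_
    by_cases hv : v = x ∨ v = nb x 0
    · rw [if_pos hv, if_neg]
      rintro ⟨h1, h2⟩
      rcases hv with hv | hv
      · exact h1 hv
      · exact h2 hv
    · rw [if_neg hv, if_pos]
      push Not at hv
      exact hv
  rw [e2, hP.bsum H]
  have c1 : ∑ v, ∑ k, (if v = x ∨ v = nb x 0 ∨ nb v k = x ∨ nb v k = nb x 0 then 0
      else H v (nb v k)) = inn nb x R := by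
    unfold inn
    refine Finset.sum_congr rfl fun v _ => Finset.sum_congr rfl fun k _ => ?_
    by_cases hc : v = x ∨ v = nb x 0 ∨ nb v k = x ∨ nb v k = nb x 0
    · rw [if_pos hc, if_pos hc]
    · rw [if_neg hc, if_neg hc]
      push Not at hc
      simp only [H]
      rw [if_neg hc.2.2.1, if_neg hc.2.2.2]
  rw [c1]
  have d1 : H (nb x 1) x = gg (hP.tv S i 0) (S (Sum.inr (Out.a (i - 1)))) := by
    simp only [H, if_true]
    rw [show R (nb x 1) = hP.tv S i 0 from hR (hP.tm 0)]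
  have d2 : H (nb x 2) x = gg (hP.tv S i 1) (S (Sum.inr (Out.b (i - 1)))) := by
    have : ¬ nb x 1 = nb x 2 := fun h => absurd (hP.inj x h) (by decide)
    simp only [H, if_true, if_neg this]
    rw [show R (nb x 2) = hP.tv S i 1 from hR (hP.tm 1)]
  have d3 : H (nb (nb x 0) 1) (nb x 0) = gg (hP.tv S i 2) (S (Sum.inr (Out.a (i + 1)))) := by
    simp only [H, if_true, if_neg hP.xy]
    rw [show R (nb (nb x 0) 1) = hP.tv S i 2 from hR (hP.tm 2)]
  have d4 : H (nb (nb x 0) 2) (nb x 0) = gg (hP.tv S i 3) (S (Sum.inr (Out.b (i + 1)))) := by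
    have : ¬ nb (nb x 0) 1 = nb (nb x 0) 2 := fun h => absurd (hP.inj _ h) (by decide)
    simp only [H, if_true, if_neg this, if_neg hP.xy]
    rw [show R (nb (nb x 0) 2) = hP.tv S i 3 from hR (hP.tm 3)]
  rw [d1, d2, d3, d4]

end Pole

theorem out_univ : (Finset.univ : Finset Out) = {Out.a 0, Out.a 1, Out.a 2, Out.b 0, Out.b 1,
    Out.b 2, Out.c 0, Out.c 1, Out.c 2, Out.u} := by decide

theorem out_sum (f : Out → ℕ) : ∑ o, f o = (∑ j, f (Out.a j)) + (∑ j, f (Out.b j)) +
    (∑ j, f (Out.c j)) + f Out.u := by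
  rw [out_univ, Fin.sum_univ_three, Fin.sum_univ_three, Fin.sum_univ_three]
  repeat rw [Finset.sum_insert (by decide)]
  rw [Finset.sum_singleton]
  ring

namespace Pole

variable (hP : Pole nb x)
include hP

/-- Edges at the gate `j`. -/
def ga (S : W nb x → Bool) (j : Fin 3) : ℕ :=
  dd (S (Sum.inr (Out.a j))) (S (Sum.inr (Out.c j))) +
  dd (S (Sum.inr (Out.b j))) (S (Sum.inr (Out.c j))) +
  dd (S (Sum.inr (Out.c j))) (S (Sum.inr Out.u)) +
  dd (S (Sum.inr (Out.a j))) (hP.tv S (j + 1) 0) +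
  dd (S (Sum.inr (Out.b j))) (hP.tv S (j + 1) 1) +
  dd (S (Sum.inr (Out.a j))) (hP.tv S (j - 1) 2) +
  dd (S (Sum.inr (Out.b j))) (hP.tv S (j - 1) 3)

theorem wcut [Fintype V] (S : W nb x → Bool) : cut (wnb nb x) S =
    ∑ i, inn nb x (res nb x S i false) + ∑ j, hP.ga S j := by
  unfold cut
  rw [Fintype.sum_sum_type, Fintype.sum_prod_type, out_sum]
  rw [Finset.sum_congr rfl fun i _ => hP.copy_sum S i]
  have ha : ∀ j, ∑ k, gg (S (Sum.inr (Out.a j))) (S (wnb nb x (Sum.inr (Out.a j)) k)) =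
      gg (S (Sum.inr (Out.a j))) (S (Sum.inr (Out.c j))) +
      gg (S (Sum.inr (Out.a j))) (hP.tv S (j + 1) 0) +
      gg (S (Sum.inr (Out.a j))) (hP.tv S (j - 1) 2) := by
    intro j
    rw [Fin.sum_univ_three, hP.w_a0, hP.w_a1, hP.w_a2]
    rfl
  have hb : ∀ j, ∑ k, gg (S (Sum.inr (Out.b j))) (S (wnb nb x (Sum.inr (Out.b j)) k)) =
      gg (S (Sum.inr (Out.b j))) (S (Sum.inr (Out.c j))) +
      gg (S (Sum.inr (Out.b j))) (hP.tv S (j + 1) 1) +
      gg (S (Sum.inr (Out.b j))) (hP.tv S (j - 1) 3) := by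
    intro j
    rw [Fin.sum_univ_three, hP.w_b0, hP.w_b1, hP.w_b2]
    rfl
  have hc : ∀ j, ∑ k, gg (S (Sum.inr (Out.c j))) (S (wnb nb x (Sum.inr (Out.c j)) k)) =
      gg (S (Sum.inr (Out.c j))) (S (Sum.inr (Out.a j))) +
      gg (S (Sum.inr (Out.c j))) (S (Sum.inr (Out.b j))) +
      gg (S (Sum.inr (Out.c j))) (S (Sum.inr Out.u)) := by
    intro j
    rw [Fin.sum_univ_three, hP.w_c0, hP.w_c1, hP.w_c2]
  simp only [ha, hb, hc, hP.w_u]
  simp only [ga, ← gg_add]
  simp only [Fin.sum_univ_three]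
  have i0 : (0 : Fin 3) - 1 = 2 := by decide
  have i1 : (1 : Fin 3) - 1 = 0 := by decide
  have i2 : (2 : Fin 3) - 1 = 1 := by decide
  have j0 : (0 : Fin 3) + 1 = 1 := by decide
  have j1 : (1 : Fin 3) + 1 = 2 := by decide
  have j2 : (2 : Fin 3) + 1 = 0 := by decide
  simp only [i0, i1, i2, j0, j1, j2]
  ring

end Pole

end Pool.Agent.U299.CC
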