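import Pool.Agent.U299.CC.WCut

/-!
# The connectivity condition for the constructed graph
-/

set_option autoImplicit false
set_option linter.unusedSectionVars false

namespace Pool.Agent.U299.CC

variable {V : Type} {nb : V → Fin 3 → V} {x : V}

theorem pl2 {a b c n : ℕ} (h : a + b + c < n) : a < n := by omega

set_option synthInstance.maxSize 100000 in
set_option maxRecDepth 100000 in
theorem restAux : ∀ u c0 c1 c2 : Bool, dd c0 u + dd c1 u + dd c2 u < 2 →
    ∀ a0 b0 a1 b1 a2 b2 : Bool, dd c0 u + dd c1 u + dd c2 u + dd a0 c0 + dd b0 c0 + dd a1 c1 +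
      dd b1 c1 + dd a2 c2 + dd b2 c2 < 2 →
    ∀ h1 h2 : Bool, dd c0 u + dd c1 u + dd c2 u + dd a0 c0 + dd b0 c0 + dd a1 c1 +
      dd b1 c1 + dd a2 c2 + dd b2 c2 + dd a0 h1 + dd b0 h1 + dd a0 h2 + dd b0 h2 + dd a1 h2 +
      dd b1 h2 + dd a2 h1 + dd b2 h1 < 2 →
    (c0 = u ∧ c1 = u ∧ c2 = u ∧ a0 = u ∧ b0 = u ∧ a1 = u ∧ b1 = u ∧ a2 = u ∧ b2 = u ∧ h1 = u ∧
      h2 = u) := by
  decide +kernel

set_option synthInstance.maxSize 100000 in
set_option maxRecDepth 100000 in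
theorem skAux : ∀ u c0 c1 c2 : Bool, dd c0 u + dd c1 u + dd c2 u < 4 →
    ∀ a0 b0 a1 b1 a2 b2 : Bool, dd c0 u + dd c1 u + dd c2 u + dd a0 c0 + dd b0 c0 + dd a1 c1 +
      dd b1 c1 + dd a2 c2 + dd b2 c2 < 4 →
    ∀ h0 h1 h2 : Bool, dd c0 u + dd c1 u + dd c2 u + dd a0 c0 + dd b0 c0 + dd a1 c1 +
      dd b1 c1 + dd a2 c2 + dd b2 c2 + dd a0 h1 + dd b0 h1 + dd a0 h2 + dd b0 h2 + dd a1 h2 +
      dd b1 h2 + dd a1 h0 + dd b1 h0 + dd a2 h0 + dd b2 h0 + dd a2 h1 + dd b2 h1 < 4 →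
    (∃ q, ∀ p, ![h0, h1, h2, a0, a1, a2, b0, b1, b2, c0, c1, c2, u] p = q) ∨
    (3 ≤ dd c0 u + dd c1 u + dd c2 u + dd a0 c0 + dd b0 c0 + dd a1 c1 +
      dd b1 c1 + dd a2 c2 + dd b2 c2 + dd a0 h1 + dd b0 h1 + dd a0 h2 + dd b0 h2 + dd a1 h2 +
      dd b1 h2 + dd a1 h0 + dd b1 h0 + dd a2 h0 + dd b2 h0 + dd a2 h1 + dd b2 h1 ∧
      ∃ p : Fin 13, 3 ≤ p.val ∧ ∃ q, ![h0, h1, h2, a0, a1, a2, b0, b1, b2, c0, c1, c2, u] p = !q ∧
      ∀ p', p' ≠ p → ![h0, h1, h2, a0, a1, a2, b0, b1, b2, c0, c1, c2, u] p' = q) := by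
  decide +kernel

theorem dd_sum2 (a : Bool) : dd a false + dd a true = 1 := by cases a <;> rfl

theorem dd_comm (a b : Bool) : dd a b = dd b a := by cases a <;> cases b <;> rfl

theorem dd_le (a b : Bool) : dd a b ≤ 1 := by cases a <;> cases b <;> decide

namespace Pole

variable (hP : Pole nb x)
include hP

theorem tm_inj (hT : TriFree nb) (hQ : QuadFree nb) {s s' : Fin 4}
    (h : (hP.tm s).1 = (hP.tm s').1) : s = s' := by
  obtain ⟨t1, t2, t3, t4⟩ := hP.term hT hQ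
  have e1 : nb x 1 ≠ nb x 2 := fun e => absurd (hP.inj x e) (by decide)
  have e2 : nb (nb x 0) 1 ≠ nb (nb x 0) 2 := fun e => absurd (hP.inj _ e) (by decide)
  have a11 := t1 1 1 (by decide) (by decide)
  have a12 := t1 1 2 (by decide) (by decide)
  have a21 := t1 2 1 (by decide) (by decide)
  have a22 := t1 2 2 (by decide) (by decide)
  fin_cases s <;> fin_cases s' <;> first
  | rfl
  | exact absurd h e1
  | exact absurd h.symm e1
  | exact absurd h e2
  | exact absurd h.symm e2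
  | exact absurd h a11
  | exact absurd h.symm a11
  | exact absurd h a12
  | exact absurd h.symm a12
  | exact absurd h a21
  | exact absurd h.symm a21
  | exact absurd h a22
  | exact absurd h.symm a22

/-- The cut of the old graph for the restriction to a copy. -/
theorem cut_res [Fintype V] (S : W nb x → Bool) (i : Fin 3) (q : Bool) :
    cut nb (res nb x S i q) = inn nb x (res nb x S i false) + ∑ s, dd (hP.tv S i s) q := by
  rw [hP.cut_eq, res_x, res_y, dd_self]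
  have h1 : inn nb x (res nb x S i q) = inn nb x (res nb x S i false) := by
    apply hP.inn_congr
    intro v hv1 hv2
    have a := res_sub S i q ⟨v, hv1, hv2⟩
    have b := res_sub S i false ⟨v, hv1, hv2⟩
    simp only at a b
    rw [a, b]
  rw [h1]
  have e : ∑ s, dd (hP.tv S i s) q = dd (hP.tv S i 0) q + dd (hP.tv S i 1) q +
      dd (hP.tv S i 2) q + dd (hP.tv S i 3) q := by
    rw [Fin.sum_univ_four]
  rw [e]
  have r0 : res nb x S i q (nb x 1) = hP.tv S i 0 := res_sub S i q (hP.tm 0)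
  have r1 : res nb x S i q (nb x 2) = hP.tv S i 1 := res_sub S i q (hP.tm 1)
  have r2 : res nb x S i q (nb (nb x 0) 1) = hP.tv S i 2 := res_sub S i q (hP.tm 2)
  have r3 : res nb x S i q (nb (nb x 0) 2) = hP.tv S i 3 := res_sub S i q (hP.tm 3)
  rw [r0, r1, r2, r3]
  ring

/-- Consequences of the condition of the old graph for a nonconstant copy. -/
theorem res_cases [Fintype V] (hC : CutGood nb) (S : W nb x → Bool) (i : Fin 3) (q : Bool)
    (hs : ∃ v w : Sub nb x, S (Sum.inl (i, v)) ≠ S (Sum.inl (i, w))) :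
    4 ≤ cut nb (res nb x S i q) ∨ (3 ≤ cut nb (res nb x S i q) ∧ ∃ z : Sub nb x,
      S (Sum.inl (i, z)) = !q ∧ ∀ v : Sub nb x, v ≠ z → S (Sum.inl (i, v)) = q) := by
  rcases hC (res nb x S i q) with h | ⟨q', h⟩ | ⟨h, z, q', h1, h2⟩
  · exact Or.inl h
  · exfalso
    obtain ⟨v, w, hvw⟩ := hs
    apply hvw
    rw [← res_sub S i q v, ← res_sub S i q w, h, h]
  · right
    refine ⟨h, ?_⟩
    have hzx : z ≠ x := by
      rintro rfl
      have e1 := h2 (nb z 0) hP.xy
      rw [res_y] at e1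
      rw [res_x, e1] at h1
      revert h1
      cases q' <;> simp
    have hq : q = q' := by
      have := h2 x hzx.symm
      rwa [res_x] at this
    have hzy : z ≠ nb x 0 := by
      rintro rfl
      rw [res_y, hq] at h1
      revert h1
      cases q' <;> simp
    refine ⟨⟨z, hzx, hzy⟩, ?_, fun v hv => ?_⟩
    · rw [← res_sub S i q ⟨z, hzx, hzy⟩, hq]
      rw [hq] at h1
      exact h1
    · rw [← res_sub S i q v, h2 v.1 (fun e => hv (Subtype.ext e)), hq]

theorem inn_ge [Fintype V] (hT : TriFree nb) (hQ : QuadFree nb) (hC : CutGood nb)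
    (S : W nb x → Bool) (i : Fin 3)
    (hs : ∃ v w : Sub nb x, S (Sum.inl (i, v)) ≠ S (Sum.inl (i, w))) :
    2 ≤ inn nb x (res nb x S i false) := by
  classical
  by_contra hlt
  have key : ∀ q, 3 ≤ ∑ s, dd (hP.tv S i s) q := by
    intro q
    have := hP.res_cases hC S i q hs
    rw [hP.cut_res] at this
    rcases this with h | ⟨h, z, h1, h2⟩
    · omega
    · exfalso
      have : ∑ s, dd (hP.tv S i s) q ≤ ∑ s : Fin 4, if hP.tm s = z then 1 else 0 := by
        refine Finset.sum_le_sum fun s _ => ?_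
        by_cases hz : hP.tm s = z
        · rw [if_pos hz]
          exact dd_le _ _
        · rw [if_neg hz]
          have : hP.tv S i s = q := h2 _ hz
          rw [this, dd_self]
      have h3 : (∑ s : Fin 4, if hP.tm s = z then 1 else 0) ≤ 1 := by
        rw [← Finset.card_filter, Finset.card_le_one]
        intro s hs s' hs'
        simp only [Finset.mem_filter, Finset.mem_univ, true_and] at hs hs'
        exact hP.tm_inj hT hQ (congrArg Subtype.val (hs.trans hs'.symm))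
      omega
  have k0 := key false
  have k1 := key true
  have : ∑ s, dd (hP.tv S i s) false + ∑ s, dd (hP.tv S i s) true = 4 := by
    rw [← Finset.sum_add_distrib]
    simp only [dd_sum2]
    simp
  omega

theorem sum3 (f : Fin 3 → ℕ) (i : Fin 3) : ∑ j, f j = f i + f (i + 1) + f (i + 2) := by
  rw [Fin.sum_univ_three]
  fin_cases i
  · rfl
  · change f 0 + f 1 + f 2 = f 1 + f 2 + f 0
    ring
  · change f 0 + f 1 + f 2 = f 2 + f 0 + f 1
    ring

theorem wcutGood [Fintype V] (hT : TriFree nb) (hQ : QuadFree nb) (hC : CutGood nb) :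
    CutGood (wnb nb x) := by
  classical
  intro S
  by_cases hsp : ∃ i, ∃ v w : Sub nb x, S (Sum.inl (i, v)) ≠ S (Sum.inl (i, w))
  · obtain ⟨i, hi⟩ := hsp
    have hin := hP.inn_ge hT hQ hC S i hi
    by_cases hsp' : ∃ j, j ≠ i ∧ ∃ v w : Sub nb x, S (Sum.inl (j, v)) ≠ S (Sum.inl (j, w))
    · obtain ⟨j, hji, hj⟩ := hsp'
      have hin' := hP.inn_ge hT hQ hC S j hj
      left
      rw [hP.wcut]
      have := Finset.add_le_sum (f := fun i => inn nb x (res nb x S i false))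
        (s := Finset.univ) (fun i _ => Nat.zero_le _) (Finset.mem_univ j) (Finset.mem_univ i) hji
      omega
    · push Not at hsp'
      have hI := Finset.single_le_sum (f := fun i => inn nb x (res nb x S i false))
          (s := Finset.univ) (fun i _ => Nat.zero_le _) (Finset.mem_univ i)
      -- indices
      have k1 : i + 1 + 1 = i + 2 := (by decide : ∀ i : Fin 3, i + 1 + 1 = i + 2) i
      have k2 : i + 1 - 1 = i := (by decide : ∀ i : Fin 3, i + 1 - 1 = i) i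
      have k3 : i + 2 + 1 = i := (by decide : ∀ i : Fin 3, i + 2 + 1 = i) i
      have k4 : i + 2 - 1 = i + 1 := (by decide : ∀ i : Fin 3, i + 2 - 1 = i + 1) i
      have k5 : i - 1 = i + 2 := (by decide : ∀ i : Fin 3, i - 1 = i + 2) i
      have n1 : i + 1 ≠ i := (by decide : ∀ i : Fin 3, i + 1 ≠ i) i
      have n2 : i + 2 ≠ i := (by decide : ∀ i : Fin 3, i + 2 ≠ i) i
      obtain ⟨h1, hh1⟩ : ∃ h1, ∀ v, S (Sum.inl (i + 1, v)) = h1 :=
        ⟨_, fun v => hsp' (i + 1) n1 v (hP.tm 0)⟩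
      obtain ⟨h2, hh2⟩ : ∃ h2, ∀ v, S (Sum.inl (i + 2, v)) = h2 :=
        ⟨_, fun v => hsp' (i + 2) n2 v (hP.tm 0)⟩
      have g1 : ∀ s, hP.tv S (i + 1) s = h1 := fun s => hh1 _
      have g2 : ∀ s, hP.tv S (i + 2) s = h2 := fun s => hh2 _
      obtain ⟨a0, ha0⟩ : ∃ a, S (Sum.inr (Out.a i)) = a := ⟨_, rfl⟩
      obtain ⟨a1, ha1⟩ : ∃ a, S (Sum.inr (Out.a (i + 1))) = a := ⟨_, rfl⟩
      obtain ⟨a2, ha2⟩ : ∃ a, S (Sum.inr (Out.a (i + 2))) = a := ⟨_, rfl⟩
      obtain ⟨b0, hb0⟩ : ∃ a, S (Sum.inr (Out.b i)) = a := ⟨_, rfl⟩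
      obtain ⟨b1, hb1⟩ : ∃ a, S (Sum.inr (Out.b (i + 1))) = a := ⟨_, rfl⟩
      obtain ⟨b2, hb2⟩ : ∃ a, S (Sum.inr (Out.b (i + 2))) = a := ⟨_, rfl⟩
      obtain ⟨c0, hc0⟩ : ∃ a, S (Sum.inr (Out.c i)) = a := ⟨_, rfl⟩
      obtain ⟨c1, hc1⟩ : ∃ a, S (Sum.inr (Out.c (i + 1))) = a := ⟨_, rfl⟩
      obtain ⟨c2, hc2⟩ : ∃ a, S (Sum.inr (Out.c (i + 2))) = a := ⟨_, rfl⟩
      obtain ⟨u, hu⟩ : ∃ a, S (Sum.inr Out.u) = a := ⟨_, rfl⟩
      have e : ∑ j, hP.ga S j = (dd c0 u + dd c1 u + dd c2 u + dd a0 c0 + dd b0 c0 + dd a1 c1 +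
          dd b1 c1 + dd a2 c2 + dd b2 c2 + dd a0 h1 + dd b0 h1 + dd a0 h2 + dd b0 h2 + dd a1 h2 +
          dd b1 h2 + dd a2 h1 + dd b2 h1) + (dd a2 (hP.tv S i 0) + dd b2 (hP.tv S i 1) +
          dd a1 (hP.tv S i 2) + dd b1 (hP.tv S i 3)) := by
        rw [hP.sum3 _ i]
        unfold ga
        simp only [k1, k2, k3, k4, k5, g1, g2, ha0, ha1, ha2, hb0, hb1, hb2, hc0, hc1, hc2, hu]
        ring
      by_cases hR : dd c0 u + dd c1 u + dd c2 u + dd a0 c0 + dd b0 c0 + dd a1 c1 +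
          dd b1 c1 + dd a2 c2 + dd b2 c2 + dd a0 h1 + dd b0 h1 + dd a0 h2 + dd b0 h2 + dd a1 h2 +
          dd b1 h2 + dd a2 h1 + dd b2 h1 < 2
      · -- constant outside
        have r2 := pl2 (pl2 (pl2 (pl2 hR)))
        have r1 := pl2 (pl2 (pl2 r2))
        obtain ⟨q1, q2, q3, q4, q5, q6, q7, q8, q9, q10, q11⟩ :=
          restAux u c0 c1 c2 r1 a0 b0 a1 b1 a2 b2 r2 h1 h2 hR
        have hcut : cut nb (res nb x S i u) ≤ cut (wnb nb x) S := by
          rw [hP.cut_res, hP.wcut, e, Fin.sum_univ_four, q8, q9, q6, q7]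
          have d1 := dd_comm u (hP.tv S i 0)
          have d2 := dd_comm u (hP.tv S i 1)
          have d3 := dd_comm u (hP.tv S i 2)
          have d4 := dd_comm u (hP.tv S i 3)
          omega
        rcases hP.res_cases hC S i u hi with h | ⟨h, z, hz1, hz2⟩
        · exact Or.inl (h.trans hcut)
        · refine Or.inr (Or.inr ⟨h.trans hcut, Sum.inl (i, z), u, hz1, ?_⟩)
          have hind : ∀ j : Fin 3, j = i ∨ j = i + 1 ∨ j = i + 2 :=
            (by decide : ∀ i j : Fin 3, j = i ∨ j = i + 1 ∨ j = i + 2) i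
          rintro (⟨j, v⟩ | j | j | j | _) hne
          · rcases hind j with rfl | rfl | rfl
            · exact hz2 v fun hv => hne (by rw [hv])
            · rw [hh1, q10]
            · rw [hh2, q11]
          · rcases hind j with rfl | rfl | rfl
            · rw [ha0, q4]
            · rw [ha1, q6]
            · rw [ha2, q8]
          · rcases hind j with rfl | rfl | rfl
            · rw [hb0, q5]
            · rw [hb1, q7]
            · rw [hb2, q9]
          · rcases hind j with rfl | rfl | rfl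
            · rw [hc0, q1]
            · rw [hc1, q2]
            · rw [hc2, q3]
          · exact hu
      · left
        rw [hP.wcut, e]
        omega
  · -- no split copy
    push Not at hsp
    obtain ⟨h0, hh0⟩ : ∃ h, ∀ v, S (Sum.inl (0, v)) = h := ⟨_, fun v => hsp 0 v (hP.tm 0)⟩
    obtain ⟨h1, hh1⟩ : ∃ h, ∀ v, S (Sum.inl (1, v)) = h := ⟨_, fun v => hsp 1 v (hP.tm 0)⟩
    obtain ⟨h2, hh2⟩ : ∃ h, ∀ v, S (Sum.inl (2, v)) = h := ⟨_, fun v => hsp 2 v (hP.tm 0)⟩
    have g0 : ∀ s, hP.tv S 0 s = h0 := fun s => hh0 _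
    have g1 : ∀ s, hP.tv S 1 s = h1 := fun s => hh1 _
    have g2 : ∀ s, hP.tv S 2 s = h2 := fun s => hh2 _
    obtain ⟨a0, ha0⟩ : ∃ a, S (Sum.inr (Out.a 0)) = a := ⟨_, rfl⟩
    obtain ⟨a1, ha1⟩ : ∃ a, S (Sum.inr (Out.a 1)) = a := ⟨_, rfl⟩
    obtain ⟨a2, ha2⟩ : ∃ a, S (Sum.inr (Out.a 2)) = a := ⟨_, rfl⟩
    obtain ⟨b0, hb0⟩ : ∃ a, S (Sum.inr (Out.b 0)) = a := ⟨_, rfl⟩
    obtain ⟨b1, hb1⟩ : ∃ a, S (Sum.inr (Out.b 1)) = a := ⟨_, rfl⟩
    obtain ⟨b2, hb2⟩ : ∃ a, S (Sum.inr (Out.b 2)) = a := ⟨_, rfl⟩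
    obtain ⟨c0, hc0⟩ : ∃ a, S (Sum.inr (Out.c 0)) = a := ⟨_, rfl⟩
    obtain ⟨c1, hc1⟩ : ∃ a, S (Sum.inr (Out.c 1)) = a := ⟨_, rfl⟩
    obtain ⟨c2, hc2⟩ : ∃ a, S (Sum.inr (Out.c 2)) = a := ⟨_, rfl⟩
    obtain ⟨u, hu⟩ : ∃ a, S (Sum.inr Out.u) = a := ⟨_, rfl⟩
    have i0 : (0 : Fin 3) - 1 = 2 := by decide
    have i1 : (1 : Fin 3) - 1 = 0 := by decide
    have i2 : (2 : Fin 3) - 1 = 1 := by decide
    have j0 : (0 : Fin 3) + 1 = 1 := by decide
    have j1 : (1 : Fin 3) + 1 = 2 := by decide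
    have j2 : (2 : Fin 3) + 1 = 0 := by decide
    have e : ∑ j, hP.ga S j = dd c0 u + dd c1 u + dd c2 u + dd a0 c0 + dd b0 c0 + dd a1 c1 +
        dd b1 c1 + dd a2 c2 + dd b2 c2 + dd a0 h1 + dd b0 h1 + dd a0 h2 + dd b0 h2 + dd a1 h2 +
        dd b1 h2 + dd a1 h0 + dd b1 h0 + dd a2 h0 + dd b2 h0 + dd a2 h1 + dd b2 h1 := by
      rw [Fin.sum_univ_three]
      unfold ga
      simp only [i0, i1, i2, j0, j1, j2, g0, g1, g2, ha0, ha1, ha2, hb0, hb1, hb2, hc0, hc1, hc2,
        hu]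
      ring
    have hcut : ∑ j, hP.ga S j ≤ cut (wnb nb x) S := by
      rw [hP.wcut]
      omega
    by_cases h4 : 4 ≤ ∑ j, hP.ga S j
    · exact Or.inl (h4.trans hcut)
    · right
      rw [e, not_le] at h4
      have r2 := pl2 (pl2 (pl2 (pl2 (pl2 (pl2 h4)))))
      have r1 := pl2 (pl2 (pl2 r2))
      have := skAux u c0 c1 c2 r1 a0 b0 a1 b1 a2 b2 r2 h0 h1 h2 h4
      rw [← e] at this
      let vec : Fin 13 → Bool := ![h0, h1, h2, a0, a1, a2, b0, b1, b2, c0, c1, c2, u]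
      let ix : W nb x → Fin 13 := fun w => match w with
        | Sum.inl (i, _) => ⟨i.val, by omega⟩
        | Sum.inr (Out.a j) => ⟨j.val + 3, by omega⟩
        | Sum.inr (Out.b j) => ⟨j.val + 6, by omega⟩
        | Sum.inr (Out.c j) => ⟨j.val + 9, by omega⟩
        | Sum.inr Out.u => 12
      have hS : ∀ w, S w = vec (ix w) := by
        rintro (⟨j, v⟩ | j | j | j | _)
        · fin_cases j
          · exact hh0 v
          · exact hh1 v
          · exact hh2 v
        · fin_cases j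
          · exact ha0
          · exact ha1
          · exact ha2
        · fin_cases j
          · exact hb0
          · exact hb1
          · exact hb2
        · fin_cases j
          · exact hc0
          · exact hc1
          · exact hc2
        · exact hu
      have hinj : ∀ (o : Out) (w : W nb x), ix w = ix (Sum.inr o) → w = Sum.inr o := by
        intro o w h
        have hval := congrArg Fin.val h
        rcases w with ⟨j, v⟩ | j | j | j | _ <;> rcases o with k | k | k | _ <;>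
          simp only [ix] at hval <;> first
          | rfl
          | (exfalso; omega)
          | (rw [Fin.ext (show j.val = k.val by omega)])
          | (exfalso; revert hval; simp; omega)
      have hsur : ∀ p : Fin 13, 3 ≤ p.val → ∃ o, ix (Sum.inr o) = p := by
        intro p hp
        fin_cases p
        · simp at hp
        · simp at hp
        · simp at hp
        · exact ⟨Out.a 0, rfl⟩
        · exact ⟨Out.a 1, rfl⟩
        · exact ⟨Out.a 2, rfl⟩
        · exact ⟨Out.b 0, rfl⟩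
        · exact ⟨Out.b 1, rfl⟩
        · exact ⟨Out.b 2, rfl⟩
        · exact ⟨Out.c 0, rfl⟩
        · exact ⟨Out.c 1, rfl⟩
        · exact ⟨Out.c 2, rfl⟩
        · exact ⟨Out.u, rfl⟩
      rcases this with ⟨q, hq⟩ | ⟨h3, p, hp, q, hq, hq'⟩
      · exact Or.inl ⟨q, fun w => by rw [hS]; exact hq _⟩
      · obtain ⟨o, ho⟩ := hsur p hp
        refine Or.inr ⟨h3.trans hcut, Sum.inr o, q, by rw [hS, ho]; exact hq, fun w hw => ?_⟩
        rw [hS]
        exact hq' _ fun h => hw (hinj o w (h.trans ho.symm))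

end Pole

end Pool.Agent.U299.CC
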