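import Pool.Agent.U299.CC.Flow
import Pool.Agent.U299.CC.WCut2

/-!
# Flows of the constructed graph
-/

set_option autoImplicit false
set_option linter.unusedSectionVars false

namespace Pool.Agent.U299.CC

variable {V : Type} {nb : V → Fin 3 → V} {x : V}

open Classical in
/-- The flow induced on the `i`-th copy. -/
noncomputable def pull (nb : V → Fin 3 → V) (x : V) (φ : W nb x → Fin 3 → Finset ℕ) (i : Fin 3) :
    V → Fin 3 → Finset ℕ := fun v =>
  if h : v ≠ x ∧ v ≠ nb x 0 then φ (Sum.inl (i, ⟨v, h⟩))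
  else if v = x then ![∅, φ (Sum.inr (Out.a (i - 1))) 1, φ (Sum.inr (Out.b (i - 1))) 1]
  else ![∅, φ (Sum.inr (Out.a (i + 1))) 2, φ (Sum.inr (Out.b (i + 1))) 2]

theorem pull_in {φ : W nb x → Fin 3 → Finset ℕ} {i : Fin 3} {v : V} (h : v ≠ x ∧ v ≠ nb x 0) :
    pull nb x φ i v = φ (Sum.inl (i, ⟨v, h⟩)) := by
  unfold pull
  rw [dif_pos h]

theorem pull_x {φ : W nb x → Fin 3 → Finset ℕ} {i : Fin 3} :
    pull nb x φ i x =
      ![∅, φ (Sum.inr (Out.a (i - 1))) 1, φ (Sum.inr (Out.b (i - 1))) 1] := by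
  unfold pull
  rw [dif_neg (fun h => h.1 rfl), if_pos rfl]

/-- A flow is a pole flow. -/
theorem Con.poleFlow {φ : V → Fin 3 → Finset ℕ} (h : Con nb φ)
    (hk : ∀ v, Kir (φ v 0) (φ v 1) (φ v 2)) (x : V) : PoleFlow nb x φ :=
  ⟨fun v k k' e _ => h v k k' e, fun v _ _ => hk v⟩

namespace Pole

variable (hP : Pole nb x)
include hP

theorem pull_y {φ : W nb x → Fin 3 → Finset ℕ} {i : Fin 3} :
    pull nb x φ i (nb x 0) =
      ![∅, φ (Sum.inr (Out.a (i + 1))) 2, φ (Sum.inr (Out.b (i + 1))) 2] := by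
  unfold pull
  rw [dif_neg (fun h => h.2 rfl), if_neg hP.xy]

theorem pull_pf {φ : W nb x → Fin 3 → Finset ℕ} {j : Fin 3}
    (hF : PoleFlow (wnb nb x) (Sum.inr (Out.c j)) φ) (i : Fin 3) :
    PoleFlow nb x (pull nb x φ i) := by
  have f2 : ∀ i : Fin 3, i - 1 + 1 = i := by decide
  have f3 : ∀ i : Fin 3, i + 1 - 1 = i := by decide
  have h12 : ∀ k : Fin 3, k ≠ 0 → k = 1 ∨ k = 2 := by decide
  have kx : ∀ k k', k ≠ 0 → nb (nb x k) k' = x →
      pull nb x φ i (nb x k) k' = pull nb x φ i x k := by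
    intro k k' hk h
    rw [pull_in (hP.hx k hk), pull_x]
    rcases h12 k hk with rfl | rfl
    · change _ = φ (Sum.inr (Out.a (i - 1))) 1
      have e1 := hP.w_a1 (i - 1)
      rw [f2] at e1
      have := hF.con (Sum.inr (Out.a (i - 1))) 1 k' (by rw [e1]; exact hP.w_x1 h rfl)
        (fun h => absurd h.1 (by decide))
      rw [e1] at this
      exact this
    · change _ = φ (Sum.inr (Out.b (i - 1))) 1
      have e1 := hP.w_b1 (i - 1)
      rw [f2] at e1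
      have := hF.con (Sum.inr (Out.b (i - 1))) 1 k' (by rw [e1]; exact hP.w_x2 h rfl)
        (fun h => absurd h.1 (by decide))
      rw [e1] at this
      exact this
  have ky : ∀ k k', k ≠ 0 → nb (nb (nb x 0) k) k' = nb x 0 →
      pull nb x φ i (nb (nb x 0) k) k' = pull nb x φ i (nb x 0) k := by
    intro k k' hk h
    rw [pull_in (hP.hy k hk), hP.pull_y]
    rcases h12 k hk with rfl | rfl
    · change _ = φ (Sum.inr (Out.a (i + 1))) 2
      have e1 := hP.w_a2 (i + 1)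
      rw [f3] at e1
      have := hF.con (Sum.inr (Out.a (i + 1))) 2 k' (by rw [e1]; exact hP.w_y1 h rfl)
        (fun h => absurd h.1 (by decide))
      rw [e1] at this
      exact this
    · change _ = φ (Sum.inr (Out.b (i + 1))) 2
      have e1 := hP.w_b2 (i + 1)
      rw [f3] at e1
      have := hF.con (Sum.inr (Out.b (i + 1))) 2 k' (by rw [e1]; exact hP.w_y2 h rfl)
        (fun h => absurd h.1 (by decide))
      rw [e1] at this
      exact this
  refine ⟨?_, ?_⟩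
  · intro v k k' h hn
    by_cases hv1 : v = x
    · subst hv1
      exact kx k k' (fun h0 => hn ⟨h0, Or.inl rfl⟩) h
    by_cases hv2 : v = nb x 0
    · subst hv2
      exact ky k k' (fun h0 => hn ⟨h0, Or.inr rfl⟩) h
    by_cases h1 : nb v k = x
    · rw [h1] at h ⊢
      have hk' : k' ≠ 0 := by
        rintro rfl
        exact hv2 h.symm
      have := kx k' k hk' (by rw [h]; exact h1)
      rw [h] at this
      exact this.symm
    by_cases h2 : nb v k = nb x 0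
    · rw [h2] at h ⊢
      have hk' : k' ≠ 0 := by
        rintro rfl
        exact hv1 (h.symm.trans hP.hxy)
      have := ky k' k hk' (by rw [h]; exact h2)
      rw [h] at this
      exact this.symm
    rw [pull_in ⟨hv1, hv2⟩, pull_in ⟨h1, h2⟩]
    have e1 := hP.w_in (i := i) (v := ⟨v, hv1, hv2⟩) (k := k) ⟨h1, h2⟩
    have e2 := hP.w_in (i := i) (v := ⟨nb v k, h1, h2⟩) (k := k') (by
      change nb (nb v k) k' ≠ x ∧ nb (nb v k) k' ≠ nb x 0
      rw [h]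
      exact ⟨hv1, hv2⟩)
    have := hF.con (Sum.inl (i, ⟨v, hv1, hv2⟩)) k k' (by
      rw [e1]
      refine e2.trans ?_
      simp only [h]) (by
      rintro ⟨_, h3 | h3⟩
      · exact absurd h3 (by simp)
      · exact absurd h3 (by rw [hP.w_c0]; simp))
    rw [e1] at this
    exact this
  · intro v h1 h2
    rw [pull_in ⟨h1, h2⟩]
    exact hF.kir _ (by simp) (by rw [hP.w_c0]; simp)

theorem pull_clean {φ : W nb x → Fin 3 → Finset ℕ} {j : Fin 3}
    (hF : Clean (wnb nb x) (Sum.inr (Out.c j)) φ) (i : Fin 3) :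
    Clean nb x (pull nb x φ i) := by
  intro v h1 h2
  rw [pull_in ⟨h1, h2⟩]
  exact hF _ (by simp) (by rw [hP.w_c0]; simp)

end Pole

/-! ### Label sets at the gates -/

theorem idx : ∀ j j1 j2 : Fin 3, j + 1 = j1 → j + 2 = j2 → j1 ≠ j ∧ j2 ≠ j ∧ j2 - 1 = j1 ∧
    j2 + 1 = j ∧ j - 1 = j2 ∧ j1 + 1 = j2 ∧ j1 - 1 = j := by decide

theorem gf_of {X0 X1 X2 D0 D1 D2 : Finset ℕ} (e0 : D0 = symmDiff X1 X2) (e1 : D1 = symmDiff X2 X0)
    (e2 : D2 = symmDiff X0 X1) (hu : V3 D0 D1 D2) :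
    GF X0.card X1.card X2.card D0.card D1.card D2.card := by
  have c0 := card_sd X1 X2
  have c1 := card_sd X2 X0
  have c2 := card_sd X0 X1
  have t0 := card_tri X1 X2
  have t0' := card_tri X2 X1
  have t1 := card_tri X2 X0
  have t1' := card_tri X0 X2
  have t2 := card_tri X0 X1
  have t2' := card_tri X1 X0
  rw [symmDiff_comm X2 X1] at t0'
  rw [symmDiff_comm X0 X2] at t1'
  rw [symmDiff_comm X1 X0] at t2'
  rw [← e0] at c0 t0 t0'
  rw [← e1] at c1 t1 t1'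
  rw [← e2] at c2 t2 t2'
  obtain ⟨⟨_, n0, n1, n2⟩, hs⟩ := hu
  exact ⟨hs, n0.card_pos, n1.card_pos, n2.card_pos, by omega, by omega, by omega, t0, t0', t1,
    t1', t2, t2'⟩

theorem sd4 {a0 a1 a2 b0 b1 b2 : Finset ℕ} (ha : symmDiff a0 a1 = a2) (hb : symmDiff b0 b1 = b2) :
    symmDiff a0 b0 = symmDiff (symmDiff a1 b1) (symmDiff a2 b2) := by
  subst ha hb
  ext t
  simp only [Finset.mem_symmDiff]
  by_cases h1 : t ∈ a0 <;> by_cases h2 : t ∈ a1 <;> by_cases h3 : t ∈ b0 <;>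
    by_cases h4 : t ∈ b1 <;> simp [h1, h2, h3, h4]

theorem sd3 {x0 x1 x2 d0 : Finset ℕ}
    (h : symmDiff (symmDiff x2 x0) (symmDiff x0 x1) = d0) : d0 = symmDiff x1 x2 := by
  subst h
  ext t
  simp only [Finset.mem_symmDiff]
  by_cases h1 : t ∈ x0 <;> by_cases h2 : t ∈ x1 <;> by_cases h3 : t ∈ x2 <;> simp [h1, h2, h3]

/-- The sizes at the gates. -/
theorem gf_sets {A1 A2 B1 B2 C1 C2 : Fin 3 → Finset ℕ} {U0 U1 U2 X0 X1 X2 : Finset ℕ}
    (x0 : X0 = symmDiff (A2 1) (B2 1)) (x0' : X0 = symmDiff (A1 2) (B1 2))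
    (x1' : X1 = symmDiff (A2 2) (B2 2)) (x2 : X2 = symmDiff (A1 1) (B1 1))
    (ka1 : symmDiff (A1 0) (A1 1) = A1 2) (kb1 : symmDiff (B1 0) (B1 1) = B1 2)
    (kc1 : symmDiff (C1 0) (C1 1) = C1 2)
    (ka2 : symmDiff (A2 0) (A2 1) = A2 2) (kb2 : symmDiff (B2 0) (B2 1) = B2 2)
    (kc2 : symmDiff (C2 0) (C2 1) = C2 2)
    (ea1 : C1 0 = A1 0) (eb1 : C1 1 = B1 0) (eu1 : C1 2 = U1)
    (ea2 : C2 0 = A2 0) (eb2 : C2 1 = B2 0) (eu2 : C2 2 = U2) (hu : V3 U0 U1 U2) :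
    GF X0.card X1.card X2.card U0.card U1.card U2.card := by
  have e1 : U1 = symmDiff X2 X0 := by
    rw [← eu1, ← kc1, ea1, eb1, sd4 ka1 kb1, ← x2, ← x0']
  have e2 : U2 = symmDiff X0 X1 := by
    rw [← eu2, ← kc2, ea2, eb2, sd4 ka2 kb2, ← x0, ← x1']
  have e0 : U0 = symmDiff X1 X2 := by
    apply sd3 (x0 := X0)
    have := hu.rot.1.1
    rw [← e1, ← e2]
    exact this
  exact gf_of e0 e1 e2 hu

namespace Pole

variable (hP : Pole nb x)
include hP

theorem v3rot {U : Fin 3 → Finset ℕ} (h : V3 (U 0) (U 1) (U 2)) (j : Fin 3) :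
    V3 (U j) (U (j + 1)) (U (j + 2)) := by
  fin_cases j
  · exact h
  · exact h.rot
  · exact h.rot.rot

/-- Facts about the three copies. -/
theorem pns [Fintype V] (hN : NoDF nb) {φ : W nb x → Fin 3 → Finset ℕ} {j : Fin 3}
    (hF : PoleFlow (wnb nb x) (Sum.inr (Out.c j)) φ)
    (hcl : Clean (wnb nb x) (Sum.inr (Out.c j)) φ) (i p n : Fin 3) (hp : i - 1 = p)
    (hn : i + 1 = n) :
    PN (φ (Sum.inr (Out.a p)) 1).card (φ (Sum.inr (Out.b p)) 1).card
      (φ (Sum.inr (Out.a n)) 2).card (φ (Sum.inr (Out.b n)) 2).card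
      (symmDiff (φ (Sum.inr (Out.a p)) 1) (φ (Sum.inr (Out.b p)) 1)).card := by
  have := hP.pn hN (hP.pull_pf hF i) (hP.pull_clean hcl i)
  rw [pull_x, hP.pull_y, hp, hn] at this
  exact this

theorem pars [Fintype V] {φ : W nb x → Fin 3 → Finset ℕ} {j : Fin 3}
    (hF : PoleFlow (wnb nb x) (Sum.inr (Out.c j)) φ) (i p n : Fin 3) (hp : i - 1 = p)
    (hn : i + 1 = n) :
    symmDiff (φ (Sum.inr (Out.a p)) 1) (φ (Sum.inr (Out.b p)) 1) =
    symmDiff (φ (Sum.inr (Out.a n)) 2) (φ (Sum.inr (Out.b n)) 2) := by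
  have := hP.par (hP.pull_pf hF i)
  rw [pull_x, hP.pull_y, hp, hn] at this
  exact this

/-- Sizes at the gates of a clean flow. -/
theorem gfs [Fintype V] {φ : W nb x → Fin 3 → Finset ℕ} {j j1 j2 : Fin 3}
    (hF : PoleFlow (wnb nb x) (Sum.inr (Out.c j)) φ)
    (hcl : Clean (wnb nb x) (Sum.inr (Out.c j)) φ) (h1 : j + 1 = j1) (h2 : j + 2 = j2) :
    GF (symmDiff (φ (Sum.inr (Out.a j2)) 1) (φ (Sum.inr (Out.b j2)) 1)).card
      (symmDiff (φ (Sum.inr (Out.a j)) 1) (φ (Sum.inr (Out.b j)) 1)).card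
      (symmDiff (φ (Sum.inr (Out.a j1)) 1) (φ (Sum.inr (Out.b j1)) 1)).card
      (φ (Sum.inr Out.u) j).card (φ (Sum.inr Out.u) j1).card (φ (Sum.inr Out.u) j2).card := by
  obtain ⟨n1, n2, g1, g2, g3, g4, g5⟩ := idx j j1 j2 h1 h2
  have ha : ∀ i, i ≠ j → V3 (φ (Sum.inr (Out.a i)) 0) (φ (Sum.inr (Out.a i)) 1)
      (φ (Sum.inr (Out.a i)) 2) := fun i hi => hcl _ (by simp) (by rw [hP.w_c0]; simpa using hi)
  have hb : ∀ i, V3 (φ (Sum.inr (Out.b i)) 0) (φ (Sum.inr (Out.b i)) 1)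
      (φ (Sum.inr (Out.b i)) 2) := fun i => hcl _ (by simp) (by rw [hP.w_c0]; simp)
  have hc : ∀ i, i ≠ j → V3 (φ (Sum.inr (Out.c i)) 0) (φ (Sum.inr (Out.c i)) 1)
      (φ (Sum.inr (Out.c i)) 2) := fun i hi => hcl _ (by simpa using hi)
        (by rw [hP.w_c0]; simp)
  have hu : V3 (φ (Sum.inr Out.u) 0) (φ (Sum.inr Out.u) 1) (φ (Sum.inr Out.u) 2) :=
    hcl _ (by simp) (by rw [hP.w_c0]; simp)
  have ea : ∀ i, i ≠ j → φ (Sum.inr (Out.c i)) 0 = φ (Sum.inr (Out.a i)) 0 := fun i hi =>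
    hF.con (Sum.inr (Out.a i)) 0 0 rfl (by
      rintro ⟨_, h | h⟩
      · exact absurd h (by simp)
      · exact absurd h (by rw [hP.w_c0]; simpa using hi))
  have eb : ∀ i, φ (Sum.inr (Out.c i)) 1 = φ (Sum.inr (Out.b i)) 0 := fun i =>
    hF.con (Sum.inr (Out.b i)) 0 1 rfl (by
      rintro ⟨_, h | h⟩
      · exact absurd h (by simp)
      · exact absurd h (by rw [hP.w_c0]; simp))
  have eu : ∀ i, φ (Sum.inr (Out.c i)) 2 = φ (Sum.inr Out.u) i := fun i =>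
    hF.con (Sum.inr Out.u) i 2 rfl (by
      rintro ⟨_, h | h⟩
      · exact absurd h (by simp)
      · exact absurd h (by rw [hP.w_c0]; simp))
  refine gf_sets (A1 := φ (Sum.inr (Out.a j1))) (A2 := φ (Sum.inr (Out.a j2)))
    (B1 := φ (Sum.inr (Out.b j1))) (B2 := φ (Sum.inr (Out.b j2)))
    (C1 := φ (Sum.inr (Out.c j1))) (C2 := φ (Sum.inr (Out.c j2))) rfl
    (hP.pars hF j j2 j1 g3 h1) (hP.pars hF j1 j j2 g5 g4) rfl
    (ha j1 n1).1.1 (hb j1).1.1 (hc j1 n1).1.1 (ha j2 n2).1.1 (hb j2).1.1 (hc j2 n2).1.1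
    (ea j1 n1) (eb j1) (eu j1) (ea j2 n2) (eb j2) (eu j2) ?_
  have := hP.v3rot hu j
  rw [h1, h2] at this
  exact this

/-- In a clean flow, `c_j b_j` and `c_j u` are on exactly one cycle each. -/
theorem core [Fintype V] (hN : NoDF nb) {φ : W nb x → Fin 3 → Finset ℕ} {j : Fin 3}
    (hF : PoleFlow (wnb nb x) (Sum.inr (Out.c j)) φ)
    (hcl : Clean (wnb nb x) (Sum.inr (Out.c j)) φ) :
    (φ (Sum.inr (Out.b j)) 0).card = 1 ∧ (φ (Sum.inr Out.u) j).card = 1 := by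
  obtain ⟨j1, h1⟩ : ∃ j1, j + 1 = j1 := ⟨_, rfl⟩
  obtain ⟨j2, h2⟩ : ∃ j2, j + 2 = j2 := ⟨_, rfl⟩
  have hG := hP.gfs hF hcl h1 h2
  obtain ⟨n1, n2, g1, g2, g3, g4, g5⟩ := idx j j1 j2 h1 h2
  have ha : ∀ i, i ≠ j → V3 (φ (Sum.inr (Out.a i)) 0) (φ (Sum.inr (Out.a i)) 1)
      (φ (Sum.inr (Out.a i)) 2) := fun i hi => hcl _ (by simp) (by rw [hP.w_c0]; simpa using hi)
  have hb : ∀ i, V3 (φ (Sum.inr (Out.b i)) 0) (φ (Sum.inr (Out.b i)) 1)
      (φ (Sum.inr (Out.b i)) 2) := fun i => hcl _ (by simp) (by rw [hP.w_c0]; simp)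
  have hc : ∀ i, i ≠ j → V3 (φ (Sum.inr (Out.c i)) 0) (φ (Sum.inr (Out.c i)) 1)
      (φ (Sum.inr (Out.c i)) 2) := fun i hi => hcl _ (by simpa using hi)
        (by rw [hP.w_c0]; simp)
  have ea : ∀ i, i ≠ j → φ (Sum.inr (Out.c i)) 0 = φ (Sum.inr (Out.a i)) 0 := fun i hi =>
    hF.con (Sum.inr (Out.a i)) 0 0 rfl (by
      rintro ⟨_, h | h⟩
      · exact absurd h (by simp)
      · exact absurd h (by rw [hP.w_c0]; simpa using hi))
  have eb : ∀ i, φ (Sum.inr (Out.c i)) 1 = φ (Sum.inr (Out.b i)) 0 := fun i =>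
    hF.con (Sum.inr (Out.b i)) 0 1 rfl (by
      rintro ⟨_, h | h⟩
      · exact absurd h (by simp)
      · exact absurd h (by rw [hP.w_c0]; simp))
  have eu : ∀ i, φ (Sum.inr (Out.c i)) 2 = φ (Sum.inr Out.u) i := fun i =>
    hF.con (Sum.inr Out.u) i 2 rfl (by
      rintro ⟨_, h | h⟩
      · exact absurd h (by simp)
      · exact absurd h (by rw [hP.w_c0]; simp))
  have hc1 := (hc j1 n1).2
  have hc2 := (hc j2 n2).2
  rw [ea j1 n1, eb j1, eu j1] at hc1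
  rw [ea j2 n2, eb j2, eu j2] at hc2
  exact analysis (hP.pns hN hF hcl j j2 j1 g3 h1) (hP.pns hN hF hcl j1 j j2 g5 g4)
    (hP.pns hN hF hcl j2 j1 j g1 g2) hG (ha j1 n1).2 (hb j1).2 hc1 (ha j2 n2).2 (hb j2).2 hc2
    (hb j).2 (ha j1 n1).1.2.1.card_pos (hb j1).1.2.1.card_pos (ha j2 n2).1.2.1.card_pos
    (hb j2).1.2.1.card_pos (hb j).1.2.1.card_pos

/-- The constructed graph has no clean flow either. -/
theorem wnodf [Fintype V] (hN : NoDF nb) : NoDF (wnb nb x) := by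
  rintro ⟨φ, hc, hv⟩
  have h : ∀ j, (φ (Sum.inr Out.u) j).card = 1 := fun j =>
    (hP.core hN (j := j) (hc.poleFlow (fun v => (hv v).1) _) (fun v _ _ => hv v)).2
  have := (hv (Sum.inr Out.u)).2
  rw [h 0, h 1, h 2] at this
  omega

end Pole

/-- In every clean flow of the pole the common symmetric difference is even. -/
def EV (nb : V → Fin 3 → V) (x : V) : Prop := ∀ ψ, PoleFlow nb x ψ → Clean nb x ψ →
  (symmDiff (ψ x 1) (ψ x 2)).card % 2 = 0

/-- Every flow of the pole has at least `n` vertices on more than two cycles. -/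
def DefP (nb : V → Fin 3 → V) (x : V) (n : ℕ) : Prop := ∀ ψ, PoleFlow nb x ψ →
  ∃ D : Finset V, D.card = n ∧ ∀ v ∈ D, v ≠ x ∧ v ≠ nb x 0 ∧ ¬ V3 (ψ v 0) (ψ v 1) (ψ v 2)

namespace Pole

variable (hP : Pole nb x)
include hP

theorem wev [Fintype V] (hN : NoDF nb) : EV (wnb nb x) (Sum.inr (Out.c 0)) := by
  intro φ hF hcl
  obtain ⟨h1, h2⟩ := hP.core hN hF hcl
  have eb : φ (Sum.inr (Out.c 0)) 1 = φ (Sum.inr (Out.b 0)) 0 :=
    hF.con (Sum.inr (Out.b 0)) 0 1 rfl (by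
      rintro ⟨_, h | h⟩
      · exact absurd h (by simp)
      · exact absurd h (by rw [hP.w_c0]; simp))
  have eu : φ (Sum.inr (Out.c 0)) 2 = φ (Sum.inr Out.u) 0 :=
    hF.con (Sum.inr Out.u) 0 2 rfl (by
      rintro ⟨_, h | h⟩
      · exact absurd h (by simp)
      · exact absurd h (by rw [hP.w_c0]; simp))
  rw [eb, eu]
  have := card_sd (φ (Sum.inr (Out.b 0)) 0) (φ (Sum.inr Out.u) 0)
  omega

theorem wdef1 [Fintype V] (hE : EV nb x) : DefP (wnb nb x) (Sum.inr (Out.c 0)) 1 := by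
  intro φ hF
  by_contra hno
  have hcl : Clean (wnb nb x) (Sum.inr (Out.c 0)) φ := by
    intro v h1 h2
    by_contra h3
    exact hno ⟨{v}, by simp, by simpa using ⟨h1, h2, h3⟩⟩
  have hG := hP.gfs hF hcl (j1 := 1) (j2 := 2) rfl rfl
  have key : ∀ i p : Fin 3, i - 1 = p →
      (symmDiff (φ (Sum.inr (Out.a p)) 1) (φ (Sum.inr (Out.b p)) 1)).card % 2 = 0 := by
    intro i p hp
    have := hE _ (hP.pull_pf hF i) (hP.pull_clean hcl i)
    rw [pull_x, hp] at this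
    exact this
  exact analysis2 (key 0 2 rfl) (key 1 0 rfl) (key 2 1 rfl) hG

theorem wdef3 {n : ℕ} (hD : DefP nb x n) :
    DefP (wnb nb x) (Sum.inr (Out.c 0)) (3 * n) := by
  classical
  intro φ hF
  choose D hD1 hD2 using fun i => hD _ (hP.pull_pf hF i)
  let f : Fin 3 → {v : V // v ≠ x ∧ v ≠ nb x 0} → W nb x := fun i v => Sum.inl (i, v)
  let D' : Fin 3 → Finset (W nb x) := fun i =>
    ((D i).attach.image fun v => (Sum.inl (i, ⟨v.1, (hD2 i v.1 v.2).1, (hD2 i v.1 v.2).2.1⟩) :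
      W nb x))
  have hcard : ∀ i, (D' i).card = n := by
    intro i
    rw [Finset.card_image_of_injective, Finset.card_attach, hD1 i]
    intro v w h
    simp only [Sum.inl.injEq, Prod.mk.injEq, Subtype.mk.injEq, true_and] at h
    exact Subtype.ext h
  refine ⟨Finset.univ.biUnion D', ?_, ?_⟩
  · rw [Finset.card_biUnion]
    · simp [hcard]
    · intro i _ j _ hij
      rw [Function.onFun, Finset.disjoint_left]
      intro w hw hw'
      simp only [D', Finset.mem_image] at hw hw'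
      obtain ⟨v, _, rfl⟩ := hw
      obtain ⟨v', _, h⟩ := hw'
      simp only [Sum.inl.injEq, Prod.mk.injEq] at h
      exact hij h.1.symm
  · intro w hw
    simp only [Finset.mem_biUnion, Finset.mem_univ, true_and, D', Finset.mem_image] at hw
    obtain ⟨i, v, _, rfl⟩ := hw
    refine ⟨by simp, by rw [hP.w_c0]; simp, ?_⟩
    have := (hD2 i v.1 v.2).2.2
    rw [pull_in ⟨(hD2 i v.1 v.2).1, (hD2 i v.1 v.2).2.1⟩] at this
    exact this

/-- Goodness is inherited. -/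
theorem wgood [Fintype V] (hG : Good nb) : Good (wnb nb x) where
  toCub := hP.wcub
  tri := hP.wtri hG.tri hG.quad
  quad := hP.wquad hG.tri hG.quad
  cg := hP.wcutGood hG.tri hG.quad hG.cg
  nodf := hP.wnodf hG.nodf

end Pole

end Pool.Agent.U299.CC
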