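import Pool.Agent.U299.CC.Wind

/-!
# Girth of the constructed graph
-/

set_option autoImplicit false
set_option linter.unusedSectionVars false

namespace Pool.Agent.U299.CC

variable {V : Type} {nb : V → Fin 3 → V} {x : V}

/-- The outer neighbour `o` of the vertex `v` in the copy `i`. -/
def Tm (nb : V → Fin 3 → V) (x : V) (i : Fin 3) (v : V) (o : Out) : Prop :=
  (v = nb x 1 ∧ o = Out.a (i - 1)) ∨ (v = nb x 2 ∧ o = Out.b (i - 1)) ∨
  (v = nb (nb x 0) 1 ∧ o = Out.a (i + 1)) ∨ (v = nb (nb x 0) 2 ∧ o = Out.b (i + 1))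

/-- Adjacency of new vertices. -/
def Oa : Out → Out → Bool
  | Out.c i, Out.a j => decide (i = j)
  | Out.a i, Out.c j => decide (i = j)
  | Out.c i, Out.b j => decide (i = j)
  | Out.b i, Out.c j => decide (i = j)
  | Out.c _, Out.u => true
  | Out.u, Out.c _ => true
  | _, _ => false

theorem oa_irrefl : ∀ o, Oa o o = false := by decide

theorem oa_tri : ∀ o p, Oa o p = true → ∀ q, Oa p q = true → Oa q o = false := by decide +kernel

theorem oa_quad : ∀ o p, Oa o p = true → ∀ q, Oa p q = true → o ≠ q → ∀ r, Oa q r = true →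
    p ≠ r → Oa r o = false := by decide +kernel

namespace Pole

variable (hP : Pole nb x)
include hP

theorem aj11 {i j : Fin 3} {v w : Sub nb x} (h : Aj (wnb nb x) (Sum.inl (i, v)) (Sum.inl (j, w))) :
    i = j ∧ Aj nb v.1 w.1 := by
  obtain ⟨k, hk⟩ := h
  rcases hP.in_cases i v k with ⟨a1, a2, a3⟩ | ⟨a1, a2, a3⟩ | ⟨a1, a2, a3⟩ | ⟨a1, a2, a3⟩ |
    ⟨a1, a3⟩
  · exact absurd (a3.symm.trans hk) (by simp)
  · exact absurd (a3.symm.trans hk) (by simp)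
  · exact absurd (a3.symm.trans hk) (by simp)
  · exact absurd (a3.symm.trans hk) (by simp)
  · have := a3.symm.trans hk
    simp only [Sum.inl.injEq, Prod.mk.injEq] at this
    exact ⟨this.1, k, congrArg Subtype.val this.2⟩

theorem aj12 {i : Fin 3} {v : Sub nb x} {o : Out}
    (h : Aj (wnb nb x) (Sum.inl (i, v)) (Sum.inr o)) : Tm nb x i v.1 o := by
  obtain ⟨k, hk⟩ := h
  rcases hP.in_cases i v k with ⟨a1, a2, a3⟩ | ⟨a1, a2, a3⟩ | ⟨a1, a2, a3⟩ | ⟨a1, a2, a3⟩ |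
    ⟨a1, a3⟩
  · exact Or.inl ⟨a2.symm, (Sum.inr.inj (a3.symm.trans hk)).symm⟩
  · exact Or.inr (Or.inl ⟨a2.symm, (Sum.inr.inj (a3.symm.trans hk)).symm⟩)
  · exact Or.inr (Or.inr (Or.inl ⟨a2.symm, (Sum.inr.inj (a3.symm.trans hk)).symm⟩))
  · exact Or.inr (Or.inr (Or.inr ⟨a2.symm, (Sum.inr.inj (a3.symm.trans hk)).symm⟩))
  · exact absurd (a3.symm.trans hk) (by simp)

theorem aj21 {i : Fin 3} {v : Sub nb x} {o : Out}
    (h : Aj (wnb nb x) (Sum.inr o) (Sum.inl (i, v))) : Tm nb x i v.1 o :=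
  hP.aj12 (hP.wcub.aj_symm h)

theorem aj22 {o p : Out} (h : Aj (wnb nb x) (Sum.inr o) (Sum.inr p)) : Oa o p = true := by
  obtain ⟨k, hk⟩ := h
  rcases o with j | j | j | _
  · fin_cases k
    · rw [← Sum.inr.inj ((hP.w_a0 j).symm.trans hk)]
      simp [Oa]
    · exact absurd ((hP.w_a1 j).symm.trans hk) (by simp)
    · exact absurd ((hP.w_a2 j).symm.trans hk) (by simp)
  · fin_cases k
    · rw [← Sum.inr.inj ((hP.w_b0 j).symm.trans hk)]
      simp [Oa]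
    · exact absurd ((hP.w_b1 j).symm.trans hk) (by simp)
    · exact absurd ((hP.w_b2 j).symm.trans hk) (by simp)
  · fin_cases k
    · rw [← Sum.inr.inj ((hP.w_c0 j).symm.trans hk)]
      simp [Oa]
    · rw [← Sum.inr.inj ((hP.w_c1 j).symm.trans hk)]
      simp [Oa]
    · rw [← Sum.inr.inj ((hP.w_c2 j).symm.trans hk)]
      simp [Oa]
  · rw [← Sum.inr.inj ((hP.w_u k).symm.trans hk)]
    simp [Oa]

/-- The four terminals are distinct and pairwise nonadjacent. -/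
theorem term (hT : TriFree nb) (hQ : QuadFree nb) :
    (∀ k l : Fin 3, k ≠ 0 → l ≠ 0 → nb x k ≠ nb (nb x 0) l) ∧
    (∀ k l : Fin 3, k ≠ 0 → l ≠ 0 → k ≠ l → ¬ Aj nb (nb x k) (nb x l)) ∧
    (∀ k l : Fin 3, k ≠ 0 → l ≠ 0 → k ≠ l → ¬ Aj nb (nb (nb x 0) k) (nb (nb x 0) l)) ∧
    (∀ k l : Fin 3, k ≠ 0 → l ≠ 0 → ¬ Aj nb (nb x k) (nb (nb x 0) l)) := by
  refine ⟨?_, ?_, ?_, ?_⟩
  · intro k l hk hl h
    refine hT x (nb x k) (nb x 0) ⟨k, rfl⟩ ?_ ⟨0, hP.hxy⟩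
    rw [h]
    exact hP.aj_symm ⟨l, rfl⟩
  · intro k l hk hl hkl h
    exact hT x (nb x k) (nb x l) ⟨k, rfl⟩ h (hP.aj_symm ⟨l, rfl⟩)
  · intro k l hk hl hkl h
    exact hT (nb x 0) (nb (nb x 0) k) (nb (nb x 0) l) ⟨k, rfl⟩ h (hP.aj_symm ⟨l, rfl⟩)
  · intro k l hk hl h
    exact hQ x (nb x k) (nb (nb x 0) l) (nb x 0) ⟨k, rfl⟩ h (hP.aj_symm ⟨l, rfl⟩) ⟨0, hP.hxy⟩
      (hP.hy l hl).1.symm (hP.hx k hk).2

theorem f1 (hT : TriFree nb) (hQ : QuadFree nb) {i : Fin 3} {v : V} {o o' : Out}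
    (h : Tm nb x i v o) (h' : Tm nb x i v o') : o = o' := by
  obtain ⟨t1, t2, t3, t4⟩ := hP.term hT hQ
  have e1 : nb x 1 ≠ nb x 2 := fun e => absurd (hP.inj x e) (by decide)
  have e2 : nb (nb x 0) 1 ≠ nb (nb x 0) 2 := fun e => absurd (hP.inj _ e) (by decide)
  have a11 := t1 1 1 (by decide) (by decide)
  have a12 := t1 1 2 (by decide) (by decide)
  have a21 := t1 2 1 (by decide) (by decide)
  have a22 := t1 2 2 (by decide) (by decide)
  rcases h with ⟨h1, h2⟩ | ⟨h1, h2⟩ | ⟨h1, h2⟩ | ⟨h1, h2⟩ <;>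
  rcases h' with ⟨h1', h2'⟩ | ⟨h1', h2'⟩ | ⟨h1', h2'⟩ | ⟨h1', h2'⟩ <;>
  first
  | exact h2.trans h2'.symm
  | exact absurd (h1.symm.trans h1') (by assumption)
  | exact absurd (h1'.symm.trans h1) (by assumption)

theorem f2 {i : Fin 3} {v v' : V} {o : Out}
    (h : Tm nb x i v o) (h' : Tm nb x i v' o) : v = v' := by
  have hj : ∀ i : Fin 3, i - 1 ≠ i + 1 := by decide
  rcases h with ⟨h1, h2⟩ | ⟨h1, h2⟩ | ⟨h1, h2⟩ | ⟨h1, h2⟩ <;>
  rcases h' with ⟨h1', h2'⟩ | ⟨h1', h2'⟩ | ⟨h1', h2'⟩ | ⟨h1', h2'⟩ <;>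
  first
  | exact h1.trans h1'.symm
  | (exfalso
     have e := h2.symm.trans h2'
     simp only [Out.a.injEq, Out.b.injEq, reduceCtorEq] at e
     first
     | exact hj i e
     | exact hj i e.symm)
  | (exfalso
     have e := h2.symm.trans h2'
     simp only [reduceCtorEq] at e)

theorem f3 (hT : TriFree nb) (hQ : QuadFree nb) {i : Fin 3} {v v' : V} {o o' : Out}
    (h : Tm nb x i v o) (h' : Tm nb x i v' o') (hv : Aj nb v v') : False := by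
  obtain ⟨t1, t2, t3, t4⟩ := hP.term hT hQ
  have ir : ∀ v, ¬ Aj nb v v := fun v ⟨k, hk⟩ => hP.ne v k hk
  have sy : ∀ {v w}, ¬ Aj nb v w → ¬ Aj nb w v := fun h e => h (hP.aj_symm e)
  have b1 := t2 1 2 (by decide) (by decide) (by decide)
  have b2 := sy b1
  have b3 := t3 1 2 (by decide) (by decide) (by decide)
  have b4 := sy b3
  have c1 := t4 1 1 (by decide) (by decide)
  have c2 := t4 1 2 (by decide) (by decide)
  have c3 := t4 2 1 (by decide) (by decide)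
  have c4 := t4 2 2 (by decide) (by decide)
  have c5 := sy c1
  have c6 := sy c2
  have c7 := sy c3
  have c8 := sy c4
  rcases h with ⟨h1, h2⟩ | ⟨h1, h2⟩ | ⟨h1, h2⟩ | ⟨h1, h2⟩ <;>
  rcases h' with ⟨h1', h2'⟩ | ⟨h1', h2'⟩ | ⟨h1', h2'⟩ | ⟨h1', h2'⟩ <;>
  (rw [h1, h1'] at hv
   first
   | exact ir _ hv
   | (revert hv; assumption))

theorem wtri (hT : TriFree nb) (hQ : QuadFree nb) : TriFree (wnb nb x) := by
  rintro (⟨i, v⟩ | o) (⟨j, w⟩ | p) (⟨l, z⟩ | q) h1 h2 h3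
  · exact hT _ _ _ (hP.aj11 h1).2 (hP.aj11 h2).2 (hP.aj11 h3).2
  · obtain ⟨rfl, h⟩ := hP.aj11 h1
    exact hP.f3 hT hQ (hP.aj21 h3) (hP.aj12 h2) h
  · obtain ⟨rfl, h⟩ := hP.aj11 h3
    exact hP.f3 hT hQ (hP.aj21 h2) (hP.aj12 h1) h
  · have := hP.f1 hT hQ (hP.aj12 h1) (hP.aj21 h3)
    rw [this] at h2
    have := hP.aj22 h2
    rw [oa_irrefl] at this
    exact absurd this (by simp)
  · obtain ⟨rfl, h⟩ := hP.aj11 h2
    exact hP.f3 hT hQ (hP.aj21 h1) (hP.aj12 h3) h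
  · have := hP.f1 hT hQ (hP.aj21 h1) (hP.aj12 h2)
    rw [this] at h3
    have := hP.aj22 h3
    rw [oa_irrefl] at this
    exact absurd this (by simp)
  · have := hP.f1 hT hQ (hP.aj21 h2) (hP.aj12 h3)
    rw [this] at h1
    have := hP.aj22 h1
    rw [oa_irrefl] at this
    exact absurd this (by simp)
  · have := oa_tri _ _ (hP.aj22 h1) _ (hP.aj22 h2)
    rw [hP.aj22 h3] at this
    exact absurd this (by simp)

theorem wquad (hT : TriFree nb) (hQ : QuadFree nb) : QuadFree (wnb nb x) := by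
  have sy : ∀ {p q}, Aj (wnb nb x) p q → Aj (wnb nb x) q p := fun h => hP.wcub.aj_symm h
  -- one new vertex between two vertices of copies
  have k1 : ∀ {i j l : Fin 3} {v w z : Sub nb x} {o : Out},
      Aj (wnb nb x) (Sum.inl (i, v)) (Sum.inl (j, w)) →
      Aj (wnb nb x) (Sum.inl (j, w)) (Sum.inl (l, z)) →
      Aj (wnb nb x) (Sum.inl (l, z)) (Sum.inr o) → Aj (wnb nb x) (Sum.inr o) (Sum.inl (i, v)) →
      (Sum.inl (i, v) : W nb x) ≠ Sum.inl (l, z) → False := by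
    intro i j l v w z o h1 h2 h3 h4 hne
    obtain ⟨rfl, _⟩ := hP.aj11 h1
    obtain ⟨rfl, _⟩ := hP.aj11 h2
    exact hne (by rw [Subtype.ext (hP.f2 (hP.aj21 h4) (hP.aj12 h3))])
  -- two adjacent new vertices
  have k2 : ∀ {i j : Fin 3} {v w : Sub nb x} {o p : Out},
      Aj (wnb nb x) (Sum.inl (i, v)) (Sum.inl (j, w)) →
      Aj (wnb nb x) (Sum.inl (j, w)) (Sum.inr o) →
      Aj (wnb nb x) (Sum.inr p) (Sum.inl (i, v)) → False := by
    intro i j v w o p h1 h2 h3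
    obtain ⟨rfl, h⟩ := hP.aj11 h1
    exact hP.f3 hT hQ (hP.aj21 h3) (hP.aj12 h2) h
  -- a vertex of a copy between two new vertices
  have k3 : ∀ {i : Fin 3} {v : Sub nb x} {o p : Out},
      Aj (wnb nb x) (Sum.inr p) (Sum.inl (i, v)) → Aj (wnb nb x) (Sum.inl (i, v)) (Sum.inr o) →
      (Sum.inr p : W nb x) ≠ Sum.inr o → False := by
    intro i v o p h1 h2 hne
    exact hne (by rw [hP.f1 hT hQ (hP.aj21 h1) (hP.aj12 h2)])
  rintro (⟨i, v⟩ | o) (⟨j, w⟩ | p) (⟨l, z⟩ | q) (⟨m, y⟩ | r) h1 h2 h3 h4 h5 h6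
  · obtain ⟨rfl, e1⟩ := hP.aj11 h1
    obtain ⟨rfl, e2⟩ := hP.aj11 h2
    obtain ⟨rfl, e3⟩ := hP.aj11 h3
    obtain ⟨_, e4⟩ := hP.aj11 h4
    exact hQ _ _ _ _ e1 e2 e3 e4 (fun e => h5 (by rw [Subtype.ext e]))
      (fun e => h6 (by rw [Subtype.ext e]))
  · exact k1 h1 h2 h3 h4 h5
  · exact k1 h4 h1 h2 h3 h6.symm
  · exact k2 h1 h2 h4
  · exact k1 h3 h4 h1 h2 h5.symm
  · exact k3 h4 h1 h6.symm
  · exact k2 h4 h1 h3
  · exact k3 h4 h1 h6.symm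
  · exact k1 h2 h3 h4 h1 h6
  · exact k2 h2 h3 h1
  · exact k3 h1 h2 h5
  · exact k3 h1 h2 h5
  · exact k2 h3 h4 h2
  · exact k3 h2 h3 h6
  · exact k3 h3 h4 h5.symm
  · have := oa_quad _ _ (hP.aj22 h1) _ (hP.aj22 h2) (fun e => h5 (by rw [e])) _ (hP.aj22 h3)
      (fun e => h6 (by rw [e]))
    rw [hP.aj22 h4] at this
    exact absurd this (by simp)

end Pole

end Pool.Agent.U299.CC
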