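import Pool.Agent.U299.CC.Net

/-!
# The construction with three copies of one graph
-/

set_option autoImplicit false
set_option linter.unusedSectionVars false

namespace Pool.Agent.U299.CC

variable {V : Type} (nb : V → Fin 3 → V) (x : V)

/-- The vertices of one copy of `H = G - {x, y}`, where `y = nb x 0`. -/
abbrev Sub : Type := {v : V // v ≠ x ∧ v ≠ nb x 0}

/-- The vertices of the constructed graph. -/
abbrev W : Type := (Fin 3 × Sub nb x) ⊕ Out

open Classical in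
/-- The vertex `w` of the `i`-th copy. -/
noncomputable def tgt (i : Fin 3) (w : V) : W nb x :=
  if h : w ≠ x ∧ w ≠ nb x 0 then Sum.inl (i, ⟨w, h⟩) else Sum.inr Out.u

open Classical in
/-- The neighbours in the constructed graph. -/
noncomputable def wnb : W nb x → Fin 3 → W nb x
  | Sum.inl (i, v), k =>
    if nb v.1 k = x then (if nb x 1 = v.1 then Sum.inr (Out.a (i - 1)) else Sum.inr (Out.b (i - 1)))
    else if nb v.1 k = nb x 0 then
      (if nb (nb x 0) 1 = v.1 then Sum.inr (Out.a (i + 1)) else Sum.inr (Out.b (i + 1)))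
    else tgt nb x i (nb v.1 k)
  | Sum.inr (Out.a j), k => ![Sum.inr (Out.c j), tgt nb x (j + 1) (nb x 1),
      tgt nb x (j - 1) (nb (nb x 0) 1)] k
  | Sum.inr (Out.b j), k => ![Sum.inr (Out.c j), tgt nb x (j + 1) (nb x 2),
      tgt nb x (j - 1) (nb (nb x 0) 2)] k
  | Sum.inr (Out.c j), k => ![Sum.inr (Out.a j), Sum.inr (Out.b j), Sum.inr Out.u] k
  | Sum.inr Out.u, k => Sum.inr (Out.c k)

/-- `x` and `y = nb x 0` are adjacent, and `x` is the neighbour number 0 of `y`. -/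
structure Pole : Prop extends Cub nb where
  hxy : nb (nb x 0) 0 = x

variable {nb x}

theorem tgt_pos {i : Fin 3} {w : V} (h : w ≠ x ∧ w ≠ nb x 0) :
    tgt nb x i w = Sum.inl (i, ⟨w, h⟩) := by
  unfold tgt
  rw [dif_pos h]

namespace Pole

variable (hP : Pole nb x)
include hP

theorem hx (k : Fin 3) (hk : k ≠ 0) : nb x k ≠ x ∧ nb x k ≠ nb x 0 :=
  ⟨hP.ne x k, fun h => hk (hP.inj x h)⟩

theorem hy (k : Fin 3) (hk : k ≠ 0) : nb (nb x 0) k ≠ x ∧ nb (nb x 0) k ≠ nb x 0 :=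
  ⟨fun h => hk (hP.inj (nb x 0) (h.trans hP.hxy.symm)), hP.ne (nb x 0) k⟩

theorem xy : nb x 0 ≠ x := hP.ne x 0

theorem w_x1 {i : Fin 3} {v : Sub nb x} {k : Fin 3} (h : nb v.1 k = x) (h1 : nb x 1 = v.1) :
    wnb nb x (Sum.inl (i, v)) k = Sum.inr (Out.a (i - 1)) := by
  simp only [wnb]
  rw [if_pos h, if_pos h1]

theorem w_x2 {i : Fin 3} {v : Sub nb x} {k : Fin 3} (h : nb v.1 k = x) (h1 : nb x 2 = v.1) :
    wnb nb x (Sum.inl (i, v)) k = Sum.inr (Out.b (i - 1)) := by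
  simp only [wnb]
  rw [if_pos h, if_neg]
  intro h2
  exact absurd (hP.inj x (h2.trans h1.symm)) (by decide)

theorem w_y1 {i : Fin 3} {v : Sub nb x} {k : Fin 3} (h : nb v.1 k = nb x 0)
    (h1 : nb (nb x 0) 1 = v.1) : wnb nb x (Sum.inl (i, v)) k = Sum.inr (Out.a (i + 1)) := by
  simp only [wnb]
  rw [if_neg (by rw [h]; exact hP.xy), if_pos h, if_pos h1]

theorem w_y2 {i : Fin 3} {v : Sub nb x} {k : Fin 3} (h : nb v.1 k = nb x 0)
    (h1 : nb (nb x 0) 2 = v.1) : wnb nb x (Sum.inl (i, v)) k = Sum.inr (Out.b (i + 1)) := by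
  simp only [wnb]
  rw [if_neg (by rw [h]; exact hP.xy), if_pos h, if_neg]
  intro h2
  exact absurd (hP.inj _ (h2.trans h1.symm)) (by decide)

theorem w_in {i : Fin 3} {v : Sub nb x} {k : Fin 3} (h : nb v.1 k ≠ x ∧ nb v.1 k ≠ nb x 0) :
    wnb nb x (Sum.inl (i, v)) k = Sum.inl (i, ⟨nb v.1 k, h⟩) := by
  simp only [wnb]
  rw [if_neg h.1, if_neg h.2, tgt_pos h]

theorem w_a0 (j : Fin 3) : wnb nb x (Sum.inr (Out.a j)) 0 = Sum.inr (Out.c j) := rfl

theorem w_a1 (j : Fin 3) : wnb nb x (Sum.inr (Out.a j)) 1 =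
    Sum.inl (j + 1, ⟨nb x 1, hP.hx 1 (by decide)⟩) := by
  simp only [wnb, Matrix.cons_val_one, Matrix.cons_val_zero]
  exact tgt_pos _

theorem w_a2 (j : Fin 3) : wnb nb x (Sum.inr (Out.a j)) 2 =
    Sum.inl (j - 1, ⟨nb (nb x 0) 1, hP.hy 1 (by decide)⟩) := by
  change tgt nb x (j - 1) (nb (nb x 0) 1) = _
  exact tgt_pos _

theorem w_b0 (j : Fin 3) : wnb nb x (Sum.inr (Out.b j)) 0 = Sum.inr (Out.c j) := rfl

theorem w_b1 (j : Fin 3) : wnb nb x (Sum.inr (Out.b j)) 1 =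
    Sum.inl (j + 1, ⟨nb x 2, hP.hx 2 (by decide)⟩) := by
  change tgt nb x (j + 1) (nb x 2) = _
  exact tgt_pos _

theorem w_b2 (j : Fin 3) : wnb nb x (Sum.inr (Out.b j)) 2 =
    Sum.inl (j - 1, ⟨nb (nb x 0) 2, hP.hy 2 (by decide)⟩) := by
  change tgt nb x (j - 1) (nb (nb x 0) 2) = _
  exact tgt_pos _

theorem w_c0 (j : Fin 3) : wnb nb x (Sum.inr (Out.c j)) 0 = Sum.inr (Out.a j) := rfl

theorem w_c1 (j : Fin 3) : wnb nb x (Sum.inr (Out.c j)) 1 = Sum.inr (Out.b j) := rfl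

theorem w_c2 (j : Fin 3) : wnb nb x (Sum.inr (Out.c j)) 2 = Sum.inr Out.u := rfl

theorem w_u (k : Fin 3) : wnb nb x (Sum.inr Out.u) k = Sum.inr (Out.c k) := rfl

/-- The kinds of neighbours of a vertex in a copy. -/
theorem in_cases (i : Fin 3) (v : Sub nb x) (k : Fin 3) :
    (nb v.1 k = x ∧ nb x 1 = v.1 ∧ wnb nb x (Sum.inl (i, v)) k = Sum.inr (Out.a (i - 1))) ∨
    (nb v.1 k = x ∧ nb x 2 = v.1 ∧ wnb nb x (Sum.inl (i, v)) k = Sum.inr (Out.b (i - 1))) ∨
    (nb v.1 k = nb x 0 ∧ nb (nb x 0) 1 = v.1 ∧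
      wnb nb x (Sum.inl (i, v)) k = Sum.inr (Out.a (i + 1))) ∨
    (nb v.1 k = nb x 0 ∧ nb (nb x 0) 2 = v.1 ∧
      wnb nb x (Sum.inl (i, v)) k = Sum.inr (Out.b (i + 1))) ∨
    ∃ h : nb v.1 k ≠ x ∧ nb v.1 k ≠ nb x 0,
      wnb nb x (Sum.inl (i, v)) k = Sum.inl (i, ⟨nb v.1 k, h⟩) := by
  by_cases h1 : nb v.1 k = x
  · obtain ⟨k', hk'⟩ := hP.sym v.1 k
    rw [h1] at hk'
    have : k' = 1 ∨ k' = 2 := by
      have h0 : k' ≠ 0 := by
        rintro rfl
        exact v.2.2 hk'.symm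
      fin_cases k' <;> simp at h0 ⊢
    rcases this with rfl | rfl
    · exact Or.inl ⟨h1, hk', hP.w_x1 h1 hk'⟩
    · exact Or.inr (Or.inl ⟨h1, hk', hP.w_x2 h1 hk'⟩)
  · by_cases h2 : nb v.1 k = nb x 0
    · obtain ⟨k', hk'⟩ := hP.sym v.1 k
      rw [h2] at hk'
      have : k' = 1 ∨ k' = 2 := by
        have h0 : k' ≠ 0 := by
          rintro rfl
          exact v.2.1 (hk'.symm.trans hP.hxy)
        fin_cases k' <;> simp at h0 ⊢
      rcases this with rfl | rfl
      · exact Or.inr (Or.inr (Or.inl ⟨h2, hk', hP.w_y1 h2 hk'⟩))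
      · exact Or.inr (Or.inr (Or.inr (Or.inl ⟨h2, hk', hP.w_y2 h2 hk'⟩)))
    · exact Or.inr (Or.inr (Or.inr (Or.inr ⟨⟨h1, h2⟩, hP.w_in ⟨h1, h2⟩⟩)))

theorem wcub : Cub (wnb nb x) := by
  have f1 : ∀ i : Fin 3, i - 1 ≠ i + 1 := by decide
  have f2 : ∀ i : Fin 3, i - 1 + 1 = i := by decide
  have f3 : ∀ i : Fin 3, i + 1 - 1 = i := by decide
  refine ⟨?_, ?_, ?_⟩
  · rintro (⟨i, v⟩ | j | j | j | _) k k' h
    · rcases hP.in_cases i v k with ⟨a1, a2, a3⟩ | ⟨a1, a2, a3⟩ | ⟨a1, a2, a3⟩ | ⟨a1, a2, a3⟩ |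
        ⟨a1, a3⟩ <;>
      rcases hP.in_cases i v k' with ⟨b1, b2, b3⟩ | ⟨b1, b2, b3⟩ | ⟨b1, b2, b3⟩ | ⟨b1, b2, b3⟩ |
        ⟨b1, b3⟩ <;>
      first
      | exact hP.inj v.1 (a1.trans b1.symm)
      | (rw [a3, b3] at h
         simp only [Sum.inr.injEq, Out.a.injEq, Out.b.injEq, reduceCtorEq] at h
         first
         | exact absurd h (f1 i)
         | exact absurd h.symm (f1 i))
      | (rw [a3, b3] at h
         simp only [Sum.inr.injEq, reduceCtorEq] at h)
      | (rw [a3, b3] at h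
         simp only [Sum.inl.injEq, Prod.mk.injEq, Subtype.mk.injEq, true_and] at h
         exact hP.inj v.1 h)
    · have h0 := hP.w_a0 j
      have h1 := hP.w_a1 j
      have h2 := hP.w_a2 j
      have hj : ∀ j : Fin 3, j + 1 ≠ j - 1 := by decide
      fin_cases k <;> fin_cases k' <;> first | rfl | skip
      · exact absurd (h0.symm.trans (h.trans h1)) (by simp)
      · exact absurd (h0.symm.trans (h.trans h2)) (by simp)
      · exact absurd (h1.symm.trans (h.trans h0)) (by simp)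
      · have e := h1.symm.trans (h.trans h2)
        simp only [Sum.inl.injEq, Prod.mk.injEq] at e
        exact absurd e.1 (hj j)
      · exact absurd (h2.symm.trans (h.trans h0)) (by simp)
      · have e := h1.symm.trans (h.symm.trans h2)
        simp only [Sum.inl.injEq, Prod.mk.injEq] at e
        exact absurd e.1 (hj j)
    · have h0 := hP.w_b0 j
      have h1 := hP.w_b1 j
      have h2 := hP.w_b2 j
      have hj : ∀ j : Fin 3, j + 1 ≠ j - 1 := by decide
      fin_cases k <;> fin_cases k' <;> first | rfl | skip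
      · exact absurd (h0.symm.trans (h.trans h1)) (by simp)
      · exact absurd (h0.symm.trans (h.trans h2)) (by simp)
      · exact absurd (h1.symm.trans (h.trans h0)) (by simp)
      · have e := h1.symm.trans (h.trans h2)
        simp only [Sum.inl.injEq, Prod.mk.injEq] at e
        exact absurd e.1 (hj j)
      · exact absurd (h2.symm.trans (h.trans h0)) (by simp)
      · have e := h1.symm.trans (h.symm.trans h2)
        simp only [Sum.inl.injEq, Prod.mk.injEq] at e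
        exact absurd e.1 (hj j)
    · have h0 := hP.w_c0 j
      have h1 := hP.w_c1 j
      have h2 := hP.w_c2 j
      fin_cases k <;> fin_cases k' <;> first | rfl | skip
      · exact absurd (h0.symm.trans (h.trans h1)) (by simp)
      · exact absurd (h0.symm.trans (h.trans h2)) (by simp)
      · exact absurd (h1.symm.trans (h.trans h0)) (by simp)
      · exact absurd (h1.symm.trans (h.trans h2)) (by simp)
      · exact absurd (h2.symm.trans (h.trans h0)) (by simp)
      · exact absurd (h2.symm.trans (h.trans h1)) (by simp)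
    · rw [hP.w_u, hP.w_u] at h
      simpa using h
  · rintro (⟨i, v⟩ | j | j | j | _) k h
    · rcases hP.in_cases i v k with ⟨a1, a2, a3⟩ | ⟨a1, a2, a3⟩ | ⟨a1, a2, a3⟩ | ⟨a1, a2, a3⟩ |
        ⟨a1, a3⟩
      · rw [a3] at h; simp at h
      · rw [a3] at h; simp at h
      · rw [a3] at h; simp at h
      · rw [a3] at h; simp at h
      · rw [a3] at h
        simp only [Sum.inl.injEq, Prod.mk.injEq, true_and] at h
        exact hP.ne v.1 k (congrArg Subtype.val h)
    · fin_cases k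
      · exact absurd ((hP.w_a0 j).symm.trans h) (by simp)
      · exact absurd ((hP.w_a1 j).symm.trans h) (by simp)
      · exact absurd ((hP.w_a2 j).symm.trans h) (by simp)
    · fin_cases k
      · exact absurd ((hP.w_b0 j).symm.trans h) (by simp)
      · exact absurd ((hP.w_b1 j).symm.trans h) (by simp)
      · exact absurd ((hP.w_b2 j).symm.trans h) (by simp)
    · fin_cases k
      · exact absurd ((hP.w_c0 j).symm.trans h) (by simp)
      · exact absurd ((hP.w_c1 j).symm.trans h) (by simp)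
      · exact absurd ((hP.w_c2 j).symm.trans h) (by simp)
    · exact absurd ((hP.w_u k).symm.trans h) (by simp)
  · rintro (⟨i, v⟩ | j | j | j | _) k
    · rcases hP.in_cases i v k with ⟨a1, a2, a3⟩ | ⟨a1, a2, a3⟩ | ⟨a1, a2, a3⟩ | ⟨a1, a2, a3⟩ |
        ⟨a1, a3⟩
      · rw [a3]
        refine ⟨1, ?_⟩
        rw [hP.w_a1, f2]
        simp only [a2]
      · rw [a3]
        refine ⟨1, ?_⟩
        rw [hP.w_b1, f2]
        simp only [a2]
      · rw [a3]
        refine ⟨2, ?_⟩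
        rw [hP.w_a2, f3]
        simp only [a2]
      · rw [a3]
        refine ⟨2, ?_⟩
        rw [hP.w_b2, f3]
        simp only [a2]
      · rw [a3]
        obtain ⟨k', hk'⟩ := hP.sym v.1 k
        refine ⟨k', ?_⟩
        have h : nb (⟨nb v.1 k, a1⟩ : Sub nb x).1 k' ≠ x ∧
            nb (⟨nb v.1 k, a1⟩ : Sub nb x).1 k' ≠ nb x 0 := by
          rw [hk']
          exact v.2
        rw [hP.w_in h]
        simp only [hk']
    · fin_cases k
      · exact ⟨0, rfl⟩
      · obtain ⟨k', hk'⟩ := hP.sym x 1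
        refine ⟨k', ?_⟩
        change wnb nb x (wnb nb x (Sum.inr (Out.a j)) 1) k' = _
        rw [hP.w_a1, hP.w_x1 hk' rfl, f3]
      · obtain ⟨k', hk'⟩ := hP.sym (nb x 0) 1
        refine ⟨k', ?_⟩
        change wnb nb x (wnb nb x (Sum.inr (Out.a j)) 2) k' = _
        rw [hP.w_a2, hP.w_y1 hk' rfl, f2]
    · fin_cases k
      · exact ⟨1, rfl⟩
      · obtain ⟨k', hk'⟩ := hP.sym x 2
        refine ⟨k', ?_⟩
        change wnb nb x (wnb nb x (Sum.inr (Out.b j)) 1) k' = _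
        rw [hP.w_b1, hP.w_x2 hk' rfl, f3]
      · obtain ⟨k', hk'⟩ := hP.sym (nb x 0) 2
        refine ⟨k', ?_⟩
        change wnb nb x (wnb nb x (Sum.inr (Out.b j)) 2) k' = _
        rw [hP.w_b2, hP.w_y2 hk' rfl, f2]
    · fin_cases k
      · exact ⟨0, rfl⟩
      · exact ⟨0, rfl⟩
      · exact ⟨j, rfl⟩
    · exact ⟨2, rfl⟩

/-- The new pole: `x' = c_0`, `y' = a_0`. -/
theorem wpole : Pole (wnb nb x) (Sum.inr (Out.c 0)) where
  toCub := hP.wcub
  hxy := rfl

end Pole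

end Pool.Agent.U299.CC
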